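import Pool.Agent.MWL.UppC
import Pool.Agent.MedDiv.Low

/-!
# MWL/Asm: the size of the window length, uniformly in `ε`
-/

set_option autoImplicit false

namespace Pool.MWL

open Finset Pool.MedDiv Filter

/-! ### window length: order facts -/

theorem exists_len {ε : ℝ} {n y0 : ℕ}
    (h : ∀ x y : ℕ, y0 ≤ y → (windowCount n x y : ℝ) ≤ ε * (y : ℝ)) :
    ∃ Y : ℕ, windowLength ε n = Y ∧ Y ≤ y0 ∧
      ∀ x y : ℕ, Y ≤ y → (windowCount n x y : ℝ) ≤ ε * (y : ℝ) := by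
  have hne : {z : ℕ∞ | ∃ y₀ : ℕ, z = (y₀ : ℕ∞) ∧
    ∀ x y : ℕ, y₀ ≤ y → (windowCount n x y : ℝ) ≤ ε * (y : ℝ)}.Nonempty := ⟨y0, y0, rfl, h⟩
  obtain ⟨Y, hY, hYp⟩ := csInf_mem hne
  refine ⟨Y, hY, ?_, hYp⟩
  have h1 : windowLength ε n ≤ (y0 : ℕ∞) := sInf_le ⟨y0, rfl, h⟩
  have h2 : windowLength ε n = (Y : ℕ∞) := hY
  rw [h2] at h1
  exact_mod_cast h1

theorem len_top {ε : ℝ} {n : ℕ}
    (h : ∀ y0 : ℕ, ∃ x y : ℕ, y0 ≤ y ∧ ε * (y : ℝ) < (windowCount n x y : ℝ)) :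
    windowLength ε n = ⊤ := by
  unfold windowLength
  have : {z : ℕ∞ | ∃ y₀ : ℕ, z = (y₀ : ℕ∞) ∧
    ∀ x y : ℕ, y₀ ≤ y → (windowCount n x y : ℝ) ≤ ε * (y : ℝ)} = ∅ := by
    ext z
    simp only [Set.mem_setOf_eq, Set.mem_empty_iff_false, iff_false]
    rintro ⟨y0, -, h0⟩
    obtain ⟨x, y, h1, h2⟩ := h y0
    exact absurd (h0 x y h1) (not_le.2 h2)
  rw [this, sInf_empty]

theorem del_eq : del = delta := rfl

/-! ### windows below `2 Y n` -/

open Classical in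
theorem win_low (Y n : ℕ) (hYn : 40 ≤ Y * n) : ∃ x N : ℕ,
    ((Y : ℝ) * n / 20 ≤ (N : ℝ)) ∧
    (((Ioc x (x + N)).filter (fun m => ∃ k, Y < k ∧ 10 * k ≤ 19 * Y ∧ k ∣ m)).card
      ≤ windowCount n x (N + 1)) := by
  refine ⟨19 * (Y * n) / 10 + 1, 2 * (Y * n) - 1 - (19 * (Y * n) / 10 + 1), ?_, ?_⟩
  · have h1 : Y * n ≤ 20 * (2 * (Y * n) - 1 - (19 * (Y * n) / 10 + 1)) := by omega
    have h2 : ((Y * n : ℕ) : ℝ) ≤ ((20 * (2 * (Y * n) - 1 - (19 * (Y * n) / 10 + 1)) : ℕ) : ℝ) := by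
      exact_mod_cast h1
    rw [Nat.cast_mul, Nat.cast_mul 20] at h2
    push_cast at h2 ⊢
    linarith
  · set x := 19 * (Y * n) / 10 + 1 with hx
    set N := 2 * (Y * n) - 1 - x with hN
    rw [windowCount_eq n x (N + 1) (by omega)]
    apply card_le_card
    intro m hm
    rw [mem_filter, mem_Ioc] at hm ⊢
    obtain ⟨⟨h1, h2⟩, k, hk1, hk2, d, rfl⟩ := hm
    refine ⟨⟨h1, by omega⟩, d, ?_, ?_, Dvd.intro_left k rfl⟩
    · -- n < d
      have h3 : 19 * (Y * n) < 10 * (k * d) := by omega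
      by_contra hcon
      push Not at hcon
      have h4 : 10 * (k * d) ≤ 19 * (Y * n) := by
        calc 10 * (k * d) = (10 * k) * d := by ring
          _ ≤ (19 * Y) * n := Nat.mul_le_mul hk2 hcon
          _ = 19 * (Y * n) := by ring
      omega
    · have h3 : k * d < 2 * (Y * n) := by omega
      by_contra hcon
      push Not at hcon
      have h4 : 2 * (Y * n) ≤ k * d := by
        calc 2 * (Y * n) = Y * (2 * n) := by ring
          _ ≤ k * d := Nat.mul_le_mul hk1.le hcon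
      omega

end Pool.MWL
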