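import Pool.Agent.MWL.Asm

/-!
# MWL/Asm2: the two halves
-/

set_option autoImplicit false

namespace Pool.MWL

open Finset Pool.MedDiv Filter

theorem small_pow (c M : ℝ) (hc : 0 < c) : ∃ e0 : ℝ, 0 < e0 ∧ e0 < 1 ∧
    ∀ e : ℝ, 0 < e → e ≤ e0 → M ≤ e ^ (-c) := by
  set M' := max M 2 with hM'
  have hM2 : 2 ≤ M' := le_max_right _ _
  have hM0 : 0 < M' := by linarith
  refine ⟨M' ^ (-(1 / c)), Real.rpow_pos_of_pos hM0 _, ?_, fun e he hle => ?_⟩
  · exact Real.rpow_lt_one_of_one_lt_of_neg (by linarith) (by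
      rw [neg_lt_zero]; positivity)
  · have h1 := Real.rpow_le_rpow_of_nonpos he hle (show -c ≤ 0 by linarith)
    rw [← Real.rpow_mul hM0.le] at h1
    have h2 : -(1 / c) * -c = 1 := by field_simp
    rw [h2, Real.rpow_one] at h1
    exact (le_max_left _ _).trans h1

theorem upper_half (η : ℝ) (hη : 0 < η) (hη2 : η ≤ delta / 2) : ∃ e0 : ℝ, 0 < e0 ∧ e0 < 1 ∧
    ∀ e : ℝ, 0 < e → e ≤ e0 → ∀ n : ℕ, e ^ (-(1 / delta + η / 2)) ≤ Real.log n →
      ∃ y : ℕ, windowLength e n = y ∧ (y : ℝ) ≤ n * Real.exp (e ^ (-(1 / delta) - η)) := by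
  obtain ⟨-, -, hd0, hd1⟩ := log2_facts'
  obtain ⟨T0, hT0⟩ := upper (delta ^ 2 * η / 4) (by positivity)
  obtain ⟨e1, he1, he1', h1⟩ := small_pow 1 (max T0 1) one_pos
  obtain ⟨e2, he2, -, h2⟩ := small_pow (η / 2) 2 (by positivity)
  refine ⟨min e1 e2, lt_min he1 he2, (min_le_left _ _).trans_lt he1', fun e he hle n hn => ?_⟩
  have hle1 : e ≤ e1 := hle.trans (min_le_left _ _)
  have hle2 : e ≤ e2 := hle.trans (min_le_right _ _)
  have he1'' : e < 1 := hle1.trans_lt he1'
  have hD : 1 ≤ 1 / delta := by rw [le_div_iff₀ hd0]; linarith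
  set T := e ^ (-(1 / delta + η / 2)) with hT
  have hTe : e ^ (-(1 : ℝ)) ≤ T :=
    Real.rpow_le_rpow_of_exponent_ge he he1''.le (by linarith)
  have hTM : max T0 1 ≤ T := (h1 e he hle1).trans hTe
  have hTT0 : T0 ≤ T := (le_max_left _ _).trans hTM
  have hT1 : 1 ≤ T := (le_max_right _ _).trans hTM
  have hlogn : 0 < Real.log n := by linarith
  have hn0 : (0 : ℝ) < n := by
    rcases Nat.eq_zero_or_pos n with h | h
    · subst h; simp at hlogn
    · exact_mod_cast h
  have hn1 : (1 : ℝ) ≤ n := by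
    have : 0 < n := by exact_mod_cast hn0
    exact_mod_cast this
  have hexpn : Real.exp T ≤ n := by rwa [← Real.le_log_iff_exp_le hn0]
  have hTpow : T ^ (-delta + delta ^ 2 * η / 4) ≤ e := by
    rw [hT, ← Real.rpow_mul he.le]
    have h3 : (1 : ℝ) ≤ -(1 / delta + η / 2) * (-delta + delta ^ 2 * η / 4) := by
      have e1 : -(1 / delta + η / 2) * (-delta + delta ^ 2 * η / 4)
        = 1 + delta * η / 4 * (1 - delta * η / 2) := by field_simp; ring
      rw [e1]
      have : delta * η ≤ 1 := by nlinarith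
      have : 0 ≤ delta * η / 4 * (1 - delta * η / 2) := by
        apply mul_nonneg (by positivity); linarith
      linarith
    calc e ^ (-(1 / delta + η / 2) * (-delta + delta ^ 2 * η / 4)) ≤ e ^ (1 : ℝ) :=
          Real.rpow_le_rpow_of_exponent_ge he he1''.le h3
      _ = e := Real.rpow_one e
  have hwin : ∀ x y : ℕ, ⌈(n : ℝ) * Real.exp T⌉₊ ≤ y → (windowCount n x y : ℝ) ≤ e * (y : ℝ) := by
    intro x y hy
    have h3 : (n : ℝ) * Real.exp T ≤ y := (Nat.le_ceil _).trans (by exact_mod_cast hy)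
    refine (hT0 T hTT0 n hexpn x y h3).trans ?_
    exact mul_le_mul_of_nonneg_right hTpow (Nat.cast_nonneg _)
  obtain ⟨Y, hY, hYle, -⟩ := exists_len hwin
  refine ⟨Y, hY, ?_⟩
  have h3 : (Y : ℝ) ≤ n * Real.exp T + 1 := by
    have h4 : (Y : ℝ) ≤ (⌈(n : ℝ) * Real.exp T⌉₊ : ℝ) := by exact_mod_cast hYle
    have h5 := Nat.ceil_lt_add_one (show 0 ≤ (n : ℝ) * Real.exp T by positivity)
    linarith
  have h4 : 2 * T ≤ e ^ (-(1 / delta) - η) := by
    have h5 : e ^ (-(1 / delta) - η) = T * e ^ (-(η / 2)) := by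
      rw [hT, ← Real.rpow_add he]; congr 1; ring
    rw [h5]
    have := mul_le_mul_of_nonneg_left (h2 e he hle2) (show 0 ≤ T by linarith)
    linarith
  have h5 : Real.exp T + 1 ≤ Real.exp (e ^ (-(1 / delta) - η)) := by
    have h6 : Real.exp (2 * T) ≤ Real.exp (e ^ (-(1 / delta) - η)) := Real.exp_le_exp.2 h4
    have h7 : Real.exp (2 * T) = Real.exp T * Real.exp T := by
      rw [← Real.exp_add]; congr 1; ring
    have h8 : 2 ≤ Real.exp T := by have := Real.add_one_le_exp T; linarith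
    nlinarith
  calc (Y : ℝ) ≤ n * Real.exp T + 1 := h3
    _ ≤ n * (Real.exp T + 1) := by rw [mul_add]; linarith
    _ ≤ n * Real.exp (e ^ (-(1 / delta) - η)) := mul_le_mul_of_nonneg_left h5 hn0.le

theorem lower_half (η : ℝ) (hη : 0 < η) (hη2 : η ≤ delta / 2) : ∃ e0 : ℝ, 0 < e0 ∧ e0 < 1 ∧
    ∀ e : ℝ, 0 < e → e ≤ e0 → ∀ n : ℕ,
      (e ^ (-(1 / delta - η / 2))) ^ (1 + delta ^ 2 * η / 4) ≤ Real.log n →
      ∀ y : ℕ, windowLength e n = y → n * Real.exp (e ^ (-(1 / delta) + η)) ≤ y := by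
  classical
  obtain ⟨-, -, hd0, hd1⟩ := log2_facts'
  set η2 := delta ^ 2 * η / 4 with hη2d
  have hη20 : 0 < η2 := by positivity
  obtain ⟨Y0, hY0⟩ := mult_low η2 hη20
  obtain ⟨e1, he1, he1', h1⟩ := small_pow (1 / 2) (Y0 + 100) (by norm_num)
  obtain ⟨e2, he2, -, h2⟩ := small_pow (η / 2) 2 (by positivity)
  obtain ⟨e3, he3, -, h3⟩ := small_pow (delta * η / 4) 4 (by positivity)
  refine ⟨min e1 (min e2 e3), lt_min he1 (lt_min he2 he3), (min_le_left _ _).trans_lt he1',
    fun e he hle n hn y hy => ?_⟩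
  have hle1 : e ≤ e1 := hle.trans (min_le_left _ _)
  have hle2 : e ≤ e2 := hle.trans ((min_le_right _ _).trans (min_le_left _ _))
  have hle3 : e ≤ e3 := hle.trans ((min_le_right _ _).trans (min_le_right _ _))
  have he1'' : e < 1 := hle1.trans_lt he1'
  have hD : 1 ≤ 1 / delta := by rw [le_div_iff₀ hd0]; linarith
  set B := e ^ (-(1 / delta - η / 2)) with hB
  have hBe : e ^ (-(1 / 2 : ℝ)) ≤ B :=
    Real.rpow_le_rpow_of_exponent_ge he he1''.le (by linarith)
  have hB1 : (Y0 : ℝ) + 100 ≤ B := (h1 e he hle1).trans hBe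
  have hY00 : (0 : ℝ) ≤ Y0 := Nat.cast_nonneg _
  have hB0 : 0 < B := by linarith
  -- Y
  set Y := ⌊Real.exp B⌋₊ with hYd
  have hYle : (Y : ℝ) ≤ Real.exp B := Nat.floor_le (Real.exp_pos _).le
  have hYge : Real.exp B - 1 < Y := by have := Nat.lt_floor_add_one (Real.exp B); linarith
  have hexpB : B + 1 ≤ Real.exp B := Real.add_one_le_exp B
  have hYbig : (Y0 : ℝ) + 100 ≤ Y := by linarith
  have hYY0 : Y0 ≤ Y := by
    have : (Y0 : ℝ) ≤ Y := by linarith
    exact_mod_cast this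
  have hY100 : 100 ≤ Y := by
    have : (100 : ℝ) ≤ Y := by linarith
    exact_mod_cast this
  have hYpos : (0 : ℝ) < Y := by linarith
  have hlogY : Real.log Y ≤ B := by
    rw [Real.log_le_iff_le_exp hYpos]; exact hYle
  have hlogYpos : 0 < Real.log Y := Real.log_pos (by linarith)
  have hBpow : (1 : ℝ) ≤ B ^ (1 + η2) := Real.one_le_rpow (by linarith) (by linarith)
  have hlogn : 0 < Real.log n := by linarith
  have hn0 : (0 : ℝ) < n := by
    rcases Nat.eq_zero_or_pos n with h | h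
    · subst h; simp at hlogn
    · exact_mod_cast h
  have hn1 : 1 ≤ n := by
    have : 0 < n := by exact_mod_cast hn0
    omega
  obtain ⟨x, N, hN1, hN2⟩ := win_low Y n (by nlinarith)
  have hNn : (n : ℝ) ≤ N := by
    refine le_trans ?_ hN1
    rw [le_div_iff₀ (by norm_num)]
    nlinarith
  have hNexp : Real.exp ((Real.log Y) ^ (1 + η2)) ≤ N := by
    refine le_trans ?_ hNn
    rw [← Real.le_log_iff_exp_le hn0]
    refine le_trans ?_ hn
    exact Real.rpow_le_rpow hlogYpos.le hlogY (by linarith)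
  have hlow := hY0 Y hYY0 N hNexp x
  have hcnt : (Real.log Y) ^ (-(del + η2)) * N ≤ (windowCount n x (N + 1) : ℝ) :=
    hlow.trans (by exact_mod_cast hN2)
  have hbeta : 4 * e ≤ (Real.log Y) ^ (-(del + η2)) := by
    have h4 : B ^ (-(del + η2)) ≤ (Real.log Y) ^ (-(del + η2)) :=
      Real.rpow_le_rpow_of_nonpos hlogYpos hlogY (by rw [del_eq]; linarith)
    refine le_trans ?_ h4
    rw [hB, ← Real.rpow_mul he.le, del_eq]
    have h5 : -(1 / delta - η / 2) * -(delta + η2) ≤ 1 + -(delta * η / 4) := by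
      have e1 : -(1 / delta - η / 2) * -(delta + η2)
          = 1 + -(delta * η / 4) - η * η2 / 2 := by rw [hη2d]; field_simp; ring
      rw [e1]
      have : 0 < η * η2 / 2 := by positivity
      linarith
    calc 4 * e ≤ e ^ (-(delta * η / 4)) * e := mul_le_mul_of_nonneg_right (h3 e he hle3) he.le
      _ = e ^ (1 + -(delta * η / 4)) := by
          rw [Real.rpow_add he, Real.rpow_one]; ring
      _ ≤ e ^ (-(1 / delta - η / 2) * -(delta + η2)) :=
          Real.rpow_le_rpow_of_exponent_ge he he1''.le h5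
  have hN0 : (1 : ℝ) ≤ N := by
    have : (1 : ℝ) ≤ n := by exact_mod_cast hn1
    linarith
  have hbad : e * ((N + 1 : ℕ) : ℝ) < (windowCount n x (N + 1) : ℝ) := by
    refine lt_of_lt_of_le ?_ hcnt
    have h4 := mul_le_mul_of_nonneg_right hbeta (show (0 : ℝ) ≤ N by linarith)
    push_cast
    nlinarith
  -- N + 1 < y
  have hlt : N + 1 < y := by
    by_contra hcon
    push Not at hcon
    have hne : {z : ℕ∞ | ∃ y₀ : ℕ, z = (y₀ : ℕ∞) ∧
      ∀ x y : ℕ, y₀ ≤ y → (windowCount n x y : ℝ) ≤ e * (y : ℝ)}.Nonempty := by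
      by_contra hemp
      rw [Set.not_nonempty_iff_eq_empty] at hemp
      unfold windowLength at hy
      rw [hemp, sInf_empty] at hy
      exact absurd hy (by simp)
    obtain ⟨y', hy', hprop⟩ := csInf_mem hne
    have h5 : windowLength e n = (y' : ℕ∞) := hy'
    rw [hy] at h5
    have h6 : y = y' := by exact_mod_cast h5
    subst h6
    exact absurd (hprop x (N + 1) hcon) (not_le.2 hbad)
  have hlt' : (N : ℝ) ≤ y := by
    have : N ≤ y := by omega
    exact_mod_cast this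
  refine le_trans ?_ hlt'
  refine le_trans ?_ hN1
  have h4 : 2 * e ^ (-(1 / delta) + η) ≤ B := by
    have h5 : B = e ^ (-(1 / delta) + η) * e ^ (-(η / 2)) := by
      rw [hB, ← Real.rpow_add he]; congr 1; ring
    rw [h5]
    have := mul_le_mul_of_nonneg_left (h2 e he hle2)
      (show 0 ≤ e ^ (-(1 / delta) + η) from (Real.rpow_pos_of_pos he _).le)
    linarith
  have h5 : Real.exp (e ^ (-(1 / delta) + η)) ≤ Y / 20 := by
    have h6 : Real.exp (e ^ (-(1 / delta) + η)) ≤ Real.exp (B / 2) :=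
      Real.exp_le_exp.2 (by linarith)
    have h7 : Real.exp B = Real.exp (B / 2) * Real.exp (B / 2) := by
      rw [← Real.exp_add]; congr 1; ring
    have h8 : 40 ≤ Real.exp (B / 2) := by have := Real.add_one_le_exp (B / 2); linarith
    nlinarith
  calc (n : ℝ) * Real.exp (e ^ (-(1 / delta) + η)) ≤ n * (Y / 20) :=
        mul_le_mul_of_nonneg_left h5 hn0.le
    _ = Y * n / 20 := by ring

/-- below the threshold the window length is infinite -/
theorem top_half (η : ℝ) (hη : 0 < η) : ∃ N0 : ℕ, ∀ n : ℕ, N0 ≤ n → ∀ e : ℝ,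
    e ≤ (Real.log n) ^ (-delta - η) → windowLength e n = ⊤ := by
  classical
  obtain ⟨Y0, hY0⟩ := mult_low (η / 2) (by positivity)
  have h2 := (tendsto_rpow_atTop (show 0 < η / 2 by positivity)).eventually_gt_atTop 2
  have h3 := (Real.tendsto_log_atTop.comp tendsto_natCast_atTop_atTop).eventually h2
  obtain ⟨N1, hN1⟩ := eventually_atTop.1 h3
  refine ⟨max (max Y0 N1) 3, fun n hn e he => ?_⟩
  have hnY : Y0 ≤ n := (le_max_left _ _).trans ((le_max_left _ _).trans hn)
  have hnN : N1 ≤ n := (le_max_right _ _).trans ((le_max_left _ _).trans hn)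
  have hn3 : 3 ≤ n := (le_max_right _ _).trans hn
  have hpow : (2 : ℝ) < (Real.log n) ^ (η / 2) := hN1 n hnN
  have hlogn : 0 < Real.log n := Real.log_pos (by exact_mod_cast (show 1 < n by omega))
  apply len_top
  intro y0
  set N := max (max y0 ⌈Real.exp ((Real.log n) ^ (1 + η / 2))⌉₊) 1 with hN
  have hNy : y0 ≤ N := (le_max_left _ _).trans (le_max_left _ _)
  have hNe : Real.exp ((Real.log n) ^ (1 + η / 2)) ≤ N := by
    refine (Nat.le_ceil _).trans ?_
    exact_mod_cast (le_max_right _ _).trans (le_max_left _ _)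
  have hN1' : (1 : ℝ) ≤ N := by exact_mod_cast le_max_right _ _
  refine ⟨0, N + 1, by omega, ?_⟩
  have hlow := hY0 n hnY N hNe 0
  have hcnt : (((Ioc 0 (0 + N)).filter (fun m => ∃ k, n < k ∧ 10 * k ≤ 19 * n ∧ k ∣ m)).card : ℝ)
      ≤ (windowCount n 0 (N + 1) : ℝ) := by
    rw [windowCount_eq n 0 (N + 1) (by omega)]
    norm_cast
    apply card_le_card
    intro m hm
    rw [mem_filter, mem_Ioc] at hm ⊢
    obtain ⟨h, k, hk1, hk2, hk3⟩ := hm
    exact ⟨⟨h.1, by omega⟩, k, hk1, by omega, hk3⟩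
  refine lt_of_lt_of_le ?_ (hlow.trans hcnt)
  set L := (Real.log n) ^ (-delta - η) with hL
  have hL0 : 0 < L := Real.rpow_pos_of_pos hlogn _
  have h4 : (Real.log n) ^ (-(del + η / 2)) = L * (Real.log n) ^ (η / 2) := by
    rw [hL, ← Real.rpow_add hlogn, del_eq]; congr 1; ring
  rw [h4]
  push_cast
  have h5 : e * ((N : ℝ) + 1) ≤ L * (N + 1) := mul_le_mul_of_nonneg_right he (by linarith)
  have h6 : L * (N + 1) ≤ L * (2 * N) := mul_le_mul_of_nonneg_left (by linarith) hL0.le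
  have h7 : L * (2 * N) < L * (Real.log n) ^ (η / 2) * N := by
    have : L * (2 * N) = L * 2 * N := by ring
    rw [this]
    exact mul_lt_mul_of_pos_right (mul_lt_mul_of_pos_left hpow hL0) (by linarith)
  linarith

end Pool.MWL
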