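import Pool.Agent.MWL.Asm2

/-!
# MWL/Asm3: the uniform theorem
-/

set_option autoImplicit false

namespace Pool.MWL

open Finset Filter

theorem range_pow (L b e c : ℝ) (hL : 1 ≤ L) (he : L ^ (-b) ≤ e) (hc : 0 ≤ c) (hbc : b * c ≤ 1) :
    e ^ (-c) ≤ L := by
  have hL0 : 0 < L := by linarith
  have h1 : e ^ (-c) ≤ (L ^ (-b)) ^ (-c) :=
    Real.rpow_le_rpow_of_nonpos (Real.rpow_pos_of_pos hL0 _) he (by linarith)
  rw [← Real.rpow_mul hL0.le] at h1
  refine h1.trans ?_
  calc L ^ (-b * -c) ≤ L ^ (1 : ℝ) := Real.rpow_le_rpow_of_exponent_le hL (by linarith)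
    _ = L := Real.rpow_one L

theorem uniform (η : ℝ) (hη : 0 < η) : ∃ e0 : ℝ, 0 < e0 ∧ ∃ N0 : ℕ, ∀ n : ℕ, N0 ≤ n → ∀ e : ℝ,
    (((Real.log n) ^ (-delta + η) ≤ e → e ≤ e0 → ∃ y : ℕ, windowLength e n = y ∧
      n * Real.exp (e ^ (-(1 / delta) + η)) ≤ y ∧ y ≤ n * Real.exp (e ^ (-(1 / delta) - η))) ∧
    (e ≤ (Real.log n) ^ (-delta - η) → windowLength e n = ⊤)) := by
  obtain ⟨-, -, hd0, hd1⟩ := log2_facts'
  set t := min η (delta / 2) with ht
  have ht0 : 0 < t := lt_min hη (by linarith)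
  have ht1 : t ≤ η := min_le_left _ _
  have ht2 : t ≤ delta / 2 := min_le_right _ _
  obtain ⟨e1, he1, he1', h1⟩ := upper_half t ht0 ht2
  obtain ⟨e2, he2, he2', h2⟩ := lower_half t ht0 ht2
  obtain ⟨N1, hN1⟩ := top_half η hη
  refine ⟨min e1 e2, lt_min he1 he2, max N1 3, fun n hn e => ⟨fun hlow hup => ?_, fun h => ?_⟩⟩
  · have hn3 : 3 ≤ n := (le_max_right _ _).trans hn
    have hL1 : 1 ≤ Real.log n := by
      have h3 : (3 : ℝ) ≤ n := by exact_mod_cast hn3
      rw [Real.le_log_iff_exp_le (by linarith)]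
      have := Real.exp_one_lt_d9; linarith
    have hL0 : 0 < Real.log n := by linarith
    have hle1 : e ≤ e1 := hup.trans (min_le_left _ _)
    have hle2 : e ≤ e2 := hup.trans (min_le_right _ _)
    have he0 : 0 < e := lt_of_lt_of_le (Real.rpow_pos_of_pos hL0 _) hlow
    have hebd : (Real.log n) ^ (-(delta - t)) ≤ e := by
      refine le_trans ?_ hlow
      exact Real.rpow_le_rpow_of_exponent_le hL1 (by linarith)
    have hD : 1 ≤ 1 / delta := by rw [le_div_iff₀ hd0]; linarith
    have hdD : delta * (1 / delta) = 1 := by field_simp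
    have htD : t ≤ t * (1 / delta) := by nlinarith
    have hdt : delta * t ≤ t := by nlinarith
    have hc1 : e ^ (-(1 / delta + t / 2)) ≤ Real.log n := by
      refine range_pow (Real.log n) (delta - t) e (1 / delta + t / 2) hL1 hebd (by linarith) ?_
      have : (delta - t) * (1 / delta + t / 2)
        = delta * (1 / delta) + delta * t / 2 - t * (1 / delta) - t * t / 2 := by ring
      rw [this, hdD]
      nlinarith
    have hc2 : (e ^ (-(1 / delta - t / 2))) ^ (1 + delta ^ 2 * t / 4) ≤ Real.log n := by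
      rw [← Real.rpow_mul he0.le, neg_mul]
      refine range_pow (Real.log n) (delta - t) e _ hL1 hebd
        (mul_nonneg (by linarith) (by positivity)) ?_
      have h3 : (delta - t) * (1 / delta - t / 2) ≤ 1 - t := by
        have : (delta - t) * (1 / delta - t / 2)
          = delta * (1 / delta) - t * (1 / delta) - t * (delta - t) / 2 := by ring
        rw [this, hdD]
        have : 0 ≤ t * (delta - t) := mul_nonneg ht0.le (by linarith)
        linarith
      have h4 : 1 + delta ^ 2 * t / 4 ≤ 1 + t := by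
        have : delta ^ 2 ≤ 1 := by nlinarith
        nlinarith
      have h5 : (delta - t) * ((1 / delta - t / 2) * (1 + delta ^ 2 * t / 4))
        = ((delta - t) * (1 / delta - t / 2)) * (1 + delta ^ 2 * t / 4) := by ring
      rw [h5]
      calc ((delta - t) * (1 / delta - t / 2)) * (1 + delta ^ 2 * t / 4)
          ≤ (1 - t) * (1 + delta ^ 2 * t / 4) := mul_le_mul_of_nonneg_right h3 (by positivity)
        _ ≤ (1 - t) * (1 + t) := mul_le_mul_of_nonneg_left h4 (by linarith)
        _ ≤ 1 := by nlinarith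
    obtain ⟨y, hy, hyu⟩ := h1 e he0 hle1 n hc1
    refine ⟨y, hy, ?_, ?_⟩
    · refine le_trans ?_ (h2 e he0 hle2 n hc2 y hy)
      refine mul_le_mul_of_nonneg_left (Real.exp_le_exp.2 ?_) (Nat.cast_nonneg _)
      exact Real.rpow_le_rpow_of_exponent_ge he0 (hle1.trans he1'.le) (by linarith)
    · refine hyu.trans ?_
      refine mul_le_mul_of_nonneg_left (Real.exp_le_exp.2 ?_) (Nat.cast_nonneg _)
      exact Real.rpow_le_rpow_of_exponent_ge he0 (hle1.trans he1'.le) (by linarith)
  · exact hN1 n ((le_max_left _ _).trans hn) e h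

end Pool.MWL
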