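import Mathlib

/-!
# Truncated inclusion-exclusion on a short interval
-/

namespace Pool.MWL

open Finset Real

namespace BonfAux

/-- the truncated binomial sums alternate around `(1 - w) ^ t` -/
theorem trunc (w : ℝ) (hw0 : 0 ≤ w) (hw1 : w ≤ 1) : ∀ t r : ℕ,
    (Even r → (1 - w) ^ t ≤ ∑ j ∈ range (r + 1), (t.choose j : ℝ) * (-w) ^ j) ∧
    (Odd r → ∑ j ∈ range (r + 1), (t.choose j : ℝ) * (-w) ^ j ≤ (1 - w) ^ t) := by
  intro t
  induction t with
  | zero =>
    intro r
    have h : ∑ j ∈ range (r + 1), ((Nat.choose 0 j : ℕ) : ℝ) * (-w) ^ j = 1 := by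
      rw [Finset.sum_range_succ', Finset.sum_eq_zero]
      · simp
      · intro j _
        simp
    rw [h]
    simp
  | succ t ih =>
    intro r
    rcases r with _ | r
    · refine ⟨fun _ => ?_, fun h => ?_⟩
      · simp only [zero_add, Finset.range_one, Finset.sum_singleton, Nat.choose_zero_right,
          Nat.cast_one, pow_zero, mul_one]
        exact pow_le_one₀ (by linarith) (by linarith)
      · exact absurd h (by decide)
    · have hstep : ∑ j ∈ range (r + 1 + 1), (((t + 1).choose j : ℕ) : ℝ) * (-w) ^ j =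
          (∑ j ∈ range (r + 1 + 1), ((t.choose j : ℕ) : ℝ) * (-w) ^ j) -
            w * ∑ j ∈ range (r + 1), ((t.choose j : ℕ) : ℝ) * (-w) ^ j := by
        rw [Finset.sum_range_succ' _ (r + 1), Finset.sum_range_succ' _ (r + 1)]
        have h1 : ∑ j ∈ range (r + 1), (((t + 1).choose (j + 1) : ℕ) : ℝ) * (-w) ^ (j + 1) =
            (∑ j ∈ range (r + 1), ((t.choose (j + 1) : ℕ) : ℝ) * (-w) ^ (j + 1)) -
              w * ∑ j ∈ range (r + 1), ((t.choose j : ℕ) : ℝ) * (-w) ^ j := by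
          rw [Finset.mul_sum, ← Finset.sum_sub_distrib]
          refine Finset.sum_congr rfl fun j _ => ?_
          rw [Nat.choose_succ_succ]
          push_cast
          ring
        rw [h1]
        simp only [Nat.choose_zero_right]
        ring
      rw [hstep]
      refine ⟨fun h => ?_, fun h => ?_⟩
      · have h1 := (ih (r + 1)).1 h
        have h2 := (ih r).2 (by
          rcases Nat.even_or_odd r with h3 | h3
          · exact absurd h (by
              rw [Nat.not_even_iff_odd]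
              exact h3.add_one)
          · exact h3)
        have h3 := mul_le_mul_of_nonneg_left h2 hw0
        rw [pow_succ]
        nlinarith
      · have h1 := (ih (r + 1)).2 h
        have h2 := (ih r).1 (by
          rcases Nat.even_or_odd r with h3 | h3
          · exact h3
          · exact absurd h (by
              rw [Nat.not_odd_iff_even]
              exact h3.add_one))
        have h3 := mul_le_mul_of_nonneg_left h2 hw0
        rw [pow_succ]
        nlinarith

/-- set form -/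
theorem set_form (Q : Finset ℕ) (w : ℝ) (r : ℕ) :
    ∑ D ∈ Q.powerset.filter (fun D => D.card ≤ r), (-w) ^ D.card =
      ∑ j ∈ range (r + 1), (Q.card.choose j : ℝ) * (-w) ^ j := by
  rw [← Finset.sum_fiberwise_of_maps_to (s := Q.powerset.filter (fun D => D.card ≤ r))
    (t := range (r + 1)) (g := fun D : Finset ℕ => D.card)]
  · refine Finset.sum_congr rfl fun j hj => ?_
    have hj : j ≤ r := Nat.lt_succ_iff.1 (Finset.mem_range.1 hj)
    have h1 : (Q.powerset.filter (fun D => D.card ≤ r)).filter (fun D => D.card = j) =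
        powersetCard j Q := by
      ext D
      simp only [Finset.mem_filter, Finset.mem_powerset, Finset.mem_powersetCard]
      constructor
      · rintro ⟨⟨h1, _⟩, h3⟩
        exact ⟨h1, h3⟩
      · rintro ⟨h1, h3⟩
        exact ⟨⟨h1, by omega⟩, h3⟩
    rw [h1]
    have h2 : ∑ D ∈ powersetCard j Q, (-w) ^ D.card = ∑ D ∈ powersetCard j Q, (-w) ^ j := by
      refine Finset.sum_congr rfl fun D hD => ?_
      rw [(Finset.mem_powersetCard.1 hD).2]
    rw [h2, Finset.sum_const, Finset.card_powersetCard, nsmul_eq_mul]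
  · intro D hD
    rw [Finset.mem_filter] at hD
    rw [Finset.mem_range]
    omega

/-- the number of multiples of `d` in `(a, b]` -/
theorem card_mult_aux (a b d : ℕ) (hab : a ≤ b) (hd : 1 ≤ d) :
    |(((Ioc a b).filter (fun m => d ∣ m)).card : ℝ) - ((b : ℝ) - a) / d| ≤ 1 := by
  have h1 : ((Ioc a b).filter (fun m => d ∣ m)).card + a / d = b / d := by
    rw [← Nat.Ioc_filter_dvd_card_eq_div b d, ← Nat.Ioc_filter_dvd_card_eq_div a d,
      ← Finset.card_union_of_disjoint]
    · congr 1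
      ext m
      simp only [Finset.mem_union, Finset.mem_filter, Finset.mem_Ioc]
      constructor
      · rintro (⟨⟨h1, h2⟩, h3⟩ | ⟨⟨h1, h2⟩, h3⟩)
        · exact ⟨⟨by omega, h2⟩, h3⟩
        · exact ⟨⟨h1, by omega⟩, h3⟩
      · rintro ⟨⟨h1, h2⟩, h3⟩
        by_cases h4 : m ≤ a
        · exact Or.inr ⟨⟨h1, h4⟩, h3⟩
        · exact Or.inl ⟨⟨by omega, h2⟩, h3⟩
    · rw [Finset.disjoint_left]
      intro m hm hm'
      simp only [Finset.mem_filter, Finset.mem_Ioc] at hm hm'
      omega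
  have h2 : (((Ioc a b).filter (fun m => d ∣ m)).card : ℝ) = ((b / d : ℕ) : ℝ) - ((a / d : ℕ) : ℝ) := by
    rw [← h1]
    push_cast
    ring
  have hd' : (0 : ℝ) < d := by exact_mod_cast hd
  have hb1 : ((b / d : ℕ) : ℝ) ≤ (b : ℝ) / d := Nat.cast_div_le
  have ha1 : ((a / d : ℕ) : ℝ) ≤ (a : ℝ) / d := Nat.cast_div_le
  have hb2 : (b : ℝ) / d < ((b / d : ℕ) : ℝ) + 1 := by
    rw [div_lt_iff₀ hd']
    have := Nat.lt_div_mul_add (a := b) (b := d) hd
    have h3 : (b : ℝ) < ((b / d * d + d : ℕ) : ℝ) := by exact_mod_cast this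
    push_cast at h3
    linarith
  have ha2 : (a : ℝ) / d < ((a / d : ℕ) : ℝ) + 1 := by
    rw [div_lt_iff₀ hd']
    have := Nat.lt_div_mul_add (a := a) (b := d) hd
    have h3 : (a : ℝ) < ((a / d * d + d : ℕ) : ℝ) := by exact_mod_cast this
    push_cast at h3
    linarith
  rw [h2, abs_le, sub_div]
  constructor <;> linarith

/-- the number of small subsets -/
theorem card_small (P : Finset ℕ) (r : ℕ) :
    ((P.powerset.filter (fun D => D.card ≤ r)).card : ℝ) ≤ ((P.card : ℝ) + 1) ^ r := by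
  have h := set_form P (-1) r
  simp only [neg_neg, one_pow, Finset.sum_const, nsmul_eq_mul, mul_one] at h
  rw [h, add_pow]
  refine Finset.sum_le_sum fun j hj => ?_
  have hj : j ≤ r := Nat.lt_succ_iff.1 (Finset.mem_range.1 hj)
  rw [one_pow, mul_one]
  have h1 : ((P.card.choose j : ℕ) : ℝ) ≤ (P.card : ℝ) ^ j := by
    exact_mod_cast Nat.choose_le_pow P.card j
  have h2 : (1 : ℝ) ≤ (r.choose j : ℝ) := by
    exact_mod_cast Nat.choose_pos hj
  have h3 : (0 : ℝ) ≤ (P.card : ℝ) ^ j := by positivity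
  nlinarith

theorem log_ten : (23 : ℝ) / 10 ≤ Real.log 10 := by
  rw [Real.le_log_iff_exp_le (by norm_num)]
  have h1 : Real.exp (23 / 10) ^ 10 = Real.exp 1 ^ 23 := by
    rw [← Real.exp_nat_mul, ← Real.exp_nat_mul]
    congr 1
    norm_num
  have h2 : Real.exp 1 ^ 23 ≤ (10 : ℝ) ^ 10 := by
    calc Real.exp 1 ^ 23 ≤ (2.7182818286 : ℝ) ^ 23 := by
          gcongr
          exact Real.exp_one_lt_d9.le
      _ ≤ 10 ^ 10 := by norm_num
  rw [← h1] at h2
  exact le_of_pow_le_pow_left₀ (by norm_num) (by norm_num) h2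

end BonfAux

open BonfAux

/-- truncated inclusion-exclusion (even level) for `∑_k (1-w)^{#{p ∈ P : p ∣ k}}` on a short interval -/
theorem bonf_sum (P : Finset ℕ) (hP : ∀ p ∈ P, p.Prime) (w S : ℝ) (hw0 : 0 ≤ w) (hw1 : w ≤ 1)
    (hS : ∑ p ∈ P, (1 : ℝ) / p ≤ S) (r : ℕ) (hr : Even r) (hSr : 10 * S ≤ r) (a b : ℕ)
    (hab : a ≤ b) :
    ∑ k ∈ Ioc a b, (1 - w) ^ ((P.filter (fun p => p ∣ k)).card)
      ≤ ((b : ℝ) - a) * (∏ p ∈ P, (1 - w / p) + Real.exp (-(13 * S)))
        + ((P.card : ℝ) + 1) ^ r := by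
  classical
  have hba : (0 : ℝ) ≤ (b : ℝ) - a := by
    have : (a : ℝ) ≤ b := by exact_mod_cast hab
    linarith
  have hS0 : 0 ≤ S := le_trans (Finset.sum_nonneg fun p _ => by positivity) hS
  set DD : Finset (Finset ℕ) := P.powerset.filter (fun D => D.card ≤ r) with hDD
  have hpos : ∀ D ∈ P.powerset, 1 ≤ ∏ p ∈ D, p := by
    intro D hD
    rw [Finset.mem_powerset] at hD
    exact Nat.one_le_iff_ne_zero.2 (Finset.prod_ne_zero_iff.2 fun p hp => (hP p (hD hp)).ne_zero)
  -- the pointwise bound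
  have hpt : ∀ k, (1 - w) ^ ((P.filter (fun p => p ∣ k)).card) ≤
      ∑ D ∈ DD, if (∏ p ∈ D, p) ∣ k then (-w) ^ D.card else 0 := by
    intro k
    refine le_trans ((trunc w hw0 hw1 _ r).1 hr) (le_of_eq ?_)
    rw [← set_form, ← Finset.sum_filter]
    refine Finset.sum_congr ?_ fun _ _ => rfl
    ext D
    simp only [hDD, Finset.mem_filter, Finset.mem_powerset]
    constructor
    · rintro ⟨h1, h2⟩
      refine ⟨⟨fun p hp => (Finset.mem_filter.1 (h1 hp)).1, h2⟩, ?_⟩
      exact Finset.prod_primes_dvd k (fun p hp => (hP p (Finset.mem_filter.1 (h1 hp)).1).prime)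
        (fun p hp => (Finset.mem_filter.1 (h1 hp)).2)
    · rintro ⟨⟨h1, h2⟩, h3⟩
      refine ⟨fun p hp => Finset.mem_filter.2 ⟨h1 hp, ?_⟩, h2⟩
      exact (Finset.dvd_prod_of_mem (fun p => p) hp).trans h3
  -- sum over k
  have hsum : ∑ k ∈ Ioc a b, (1 - w) ^ ((P.filter (fun p => p ∣ k)).card) ≤
      ∑ D ∈ DD, (-w) ^ D.card * (((Ioc a b).filter (fun m => (∏ p ∈ D, p) ∣ m)).card : ℝ) := by
    refine le_trans (Finset.sum_le_sum fun k _ => hpt k) (le_of_eq ?_)
    rw [Finset.sum_comm]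
    refine Finset.sum_congr rfl fun D _ => ?_
    rw [← Finset.sum_filter, Finset.sum_const, nsmul_eq_mul, mul_comm]
  have habs : ∀ D : Finset ℕ, |(-w) ^ D.card| ≤ 1 := by
    intro D
    rw [abs_pow, abs_neg, abs_of_nonneg hw0]
    exact pow_le_one₀ hw0 hw1
  have hmain : ∑ D ∈ DD, (-w) ^ D.card *
      (((Ioc a b).filter (fun m => (∏ p ∈ D, p) ∣ m)).card : ℝ) ≤
      ((b : ℝ) - a) * ∑ D ∈ DD, (-w) ^ D.card / ((∏ p ∈ D, p : ℕ) : ℝ) + DD.card := by
    rw [Finset.mul_sum]
    have h1 : ((DD.card : ℕ) : ℝ) = ∑ D ∈ DD, (1 : ℝ) := by simp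
    rw [h1, ← Finset.sum_add_distrib]
    refine Finset.sum_le_sum fun D hD => ?_
    have hD' : D ∈ P.powerset := (Finset.mem_filter.1 hD).1
    have h2 := card_mult_aux a b (∏ p ∈ D, p) hab (hpos D hD')
    have h3 := habs D
    set x : ℝ := (-w) ^ D.card
    set c : ℝ := (((Ioc a b).filter (fun m => (∏ p ∈ D, p) ∣ m)).card : ℝ)
    set y : ℝ := ((∏ p ∈ D, p : ℕ) : ℝ)
    have h4 : |x * (c - ((b : ℝ) - a) / y)| ≤ 1 := by
      rw [abs_mul]
      calc |x| * |c - ((b : ℝ) - a) / y| ≤ 1 * 1 :=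
            mul_le_mul h3 h2 (abs_nonneg _) (by norm_num)
        _ = 1 := one_mul 1
    have h5 := (abs_le.1 h4).2
    have h6 : x * (c - ((b : ℝ) - a) / y) = x * c - ((b : ℝ) - a) * (x / y) := by ring
    rw [h6] at h5
    linarith
  -- the main term
  have hfull : ∏ p ∈ P, (1 - w / p) = ∑ D ∈ P.powerset, (-w) ^ D.card / ((∏ p ∈ D, p : ℕ) : ℝ) := by
    have h1 : ∏ p ∈ P, (1 - w / p) = ∏ p ∈ P, (1 + (-w) / (p : ℝ)) :=
      Finset.prod_congr rfl fun p _ => by ring
    rw [h1, Finset.prod_one_add]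
    refine Finset.sum_congr rfl fun D _ => ?_
    rw [Finset.prod_div_distrib, Finset.prod_const]
    push_cast
    rfl
  have htail : |∑ D ∈ P.powerset.filter (fun D => ¬ D.card ≤ r),
      (-w) ^ D.card / ((∏ p ∈ D, p : ℕ) : ℝ)| ≤ Real.exp (-(13 * S)) := by
    have h10 : (0 : ℝ) < 10 ^ r := by positivity
    have h1 : ∀ D ∈ P.powerset.filter (fun D => ¬ D.card ≤ r),
        |(-w) ^ D.card / ((∏ p ∈ D, p : ℕ) : ℝ)| ≤
          (1 / 10 ^ r) * ∏ p ∈ D, (10 / (p : ℝ)) := by
      intro D hD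
      rw [Finset.mem_filter] at hD
      have hy : (0 : ℝ) < ((∏ p ∈ D, p : ℕ) : ℝ) := by
        exact_mod_cast hpos D hD.1
      rw [abs_div, abs_of_pos hy, Finset.prod_div_distrib, Finset.prod_const]
      have h2 : (10 : ℝ) ^ r ≤ 10 ^ D.card :=
        pow_le_pow_right₀ (by norm_num) (by omega)
      have h3 : (∏ p ∈ D, (p : ℝ)) = ((∏ p ∈ D, p : ℕ) : ℝ) := by push_cast; rfl
      rw [h3, ← mul_div_assoc]
      refine div_le_div_of_nonneg_right ?_ hy.le
      calc |(-w) ^ D.card| ≤ 1 := habs D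
        _ ≤ 1 / 10 ^ r * 10 ^ D.card := by
          rw [one_div, ← div_eq_inv_mul, le_div_iff₀ h10, one_mul]
          exact h2
    calc |∑ D ∈ P.powerset.filter (fun D => ¬ D.card ≤ r),
          (-w) ^ D.card / ((∏ p ∈ D, p : ℕ) : ℝ)|
        ≤ ∑ D ∈ P.powerset.filter (fun D => ¬ D.card ≤ r),
          |(-w) ^ D.card / ((∏ p ∈ D, p : ℕ) : ℝ)| := Finset.abs_sum_le_sum_abs _ _
      _ ≤ ∑ D ∈ P.powerset.filter (fun D => ¬ D.card ≤ r),
          (1 / 10 ^ r) * ∏ p ∈ D, (10 / (p : ℝ)) := Finset.sum_le_sum h1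
      _ ≤ ∑ D ∈ P.powerset, (1 / 10 ^ r) * ∏ p ∈ D, (10 / (p : ℝ)) := by
          refine Finset.sum_le_sum_of_subset_of_nonneg (Finset.filter_subset _ _) fun D _ _ => ?_
          have : 0 ≤ ∏ p ∈ D, (10 / (p : ℝ)) := Finset.prod_nonneg fun p _ => by positivity
          positivity
      _ = (1 / 10 ^ r) * ∏ p ∈ P, (1 + 10 / (p : ℝ)) := by
          rw [← Finset.mul_sum, Finset.prod_one_add]
      _ ≤ (1 / 10 ^ r) * Real.exp (∑ p ∈ P, 10 / (p : ℝ)) := by
          refine mul_le_mul_of_nonneg_left ?_ (by positivity)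
          rw [Real.exp_sum]
          refine Finset.prod_le_prod (fun p _ => by positivity) fun p _ => ?_
          have := Real.add_one_le_exp (10 / (p : ℝ))
          linarith
      _ ≤ (1 / 10 ^ r) * Real.exp (10 * S) := by
          refine mul_le_mul_of_nonneg_left (Real.exp_le_exp.2 ?_) (by positivity)
          have h4 : ∑ p ∈ P, 10 / (p : ℝ) = 10 * ∑ p ∈ P, (1 : ℝ) / p := by
            rw [Finset.mul_sum]
            exact Finset.sum_congr rfl fun p _ => by ring
          rw [h4]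
          linarith
      _ ≤ Real.exp (-(13 * S)) := by
          have h5 : (10 : ℝ) ^ r = Real.exp (r * Real.log 10) := by
            rw [Real.exp_nat_mul, Real.exp_log (by norm_num)]
          rw [h5, one_div, ← Real.exp_neg, ← Real.exp_add]
          refine Real.exp_le_exp.2 ?_
          have h6 : 10 * S * (23 / 10) ≤ r * Real.log 10 :=
            mul_le_mul hSr log_ten (by norm_num) (Nat.cast_nonneg r)
          linarith
  have hsplit : ∑ D ∈ DD, (-w) ^ D.card / ((∏ p ∈ D, p : ℕ) : ℝ) =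
      ∏ p ∈ P, (1 - w / p) - ∑ D ∈ P.powerset.filter (fun D => ¬ D.card ≤ r),
        (-w) ^ D.card / ((∏ p ∈ D, p : ℕ) : ℝ) := by
    rw [hfull, ← Finset.sum_filter_add_sum_filter_not P.powerset (fun D => D.card ≤ r)]
    ring
  have hle : ∑ D ∈ DD, (-w) ^ D.card / ((∏ p ∈ D, p : ℕ) : ℝ) ≤
      ∏ p ∈ P, (1 - w / p) + Real.exp (-(13 * S)) := by
    rw [hsplit]
    have := (abs_le.1 htail).1
    linarith
  have hcard : (DD.card : ℝ) ≤ ((P.card : ℝ) + 1) ^ r := card_small P r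
  calc ∑ k ∈ Ioc a b, (1 - w) ^ ((P.filter (fun p => p ∣ k)).card)
      ≤ ((b : ℝ) - a) * ∑ D ∈ DD, (-w) ^ D.card / ((∏ p ∈ D, p : ℕ) : ℝ) + DD.card :=
        hsum.trans hmain
    _ ≤ ((b : ℝ) - a) * (∏ p ∈ P, (1 - w / p) + Real.exp (-(13 * S)))
        + ((P.card : ℝ) + 1) ^ r := by
        have := mul_le_mul_of_nonneg_left hle hba
        linarith

end Pool.MWL
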