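import Pool.Agent.MWL.Sym

/-!
# MWL: pairs of subsets with close products
-/

namespace Pool.MWL

open Finset Real

/-! ### Chebyshev -/

theorem sum_inv_dyadic (N : ℕ) (hN : 2 ≤ N) :
    ∑ p ∈ (Ioc N (2 * N)).filter Nat.Prime, (1 : ℝ) / p ≤ Real.log 4 / Real.log N := by
  set P := (Ioc N (2 * N)).filter Nat.Prime with hP
  have hN0 : (0 : ℝ) < N := by positivity
  have hlog : 0 < Real.log N := Real.log_pos (by exact_mod_cast hN)
  have hdvd : ∏ p ∈ P, p ∣ (2 * N).choose N := by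
    refine prod_primes_dvd _ (fun p hp => ?_) (fun p hp => ?_)
    · rw [hP, mem_filter] at hp
      exact hp.2.prime
    · rw [hP, mem_filter, mem_Ioc] at hp
      exact hp.2.dvd_choose hp.1.1 (by omega) hp.1.2
  have hle : ∏ p ∈ P, p ≤ 4 ^ N := by
    refine (Nat.le_of_dvd (Nat.choose_pos (by omega)) hdvd).trans ?_
    calc (2 * N).choose N ≤ 2 ^ (2 * N) := Nat.choose_le_two_pow _ _
      _ = 4 ^ N := by rw [pow_mul]; norm_num
  have hge : N ^ P.card ≤ ∏ p ∈ P, p := by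
    refine pow_card_le_prod P _ N (fun p hp => ?_)
    rw [hP, mem_filter, mem_Ioc] at hp
    omega
  have h1 : (P.card : ℝ) * Real.log N ≤ N * Real.log 4 := by
    have h2 : ((N : ℝ)) ^ P.card ≤ 4 ^ N := by exact_mod_cast hge.trans hle
    have h3 := Real.log_le_log (by positivity) h2
    rwa [Real.log_pow, Real.log_pow] at h3
  have h4 : ∑ p ∈ P, (1 : ℝ) / p ≤ P.card * (1 / N) := by
    rw [← nsmul_eq_mul]
    refine sum_le_card_nsmul _ _ _ (fun p hp => ?_)
    rw [hP, mem_filter, mem_Ioc] at hp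
    exact one_div_le_one_div_of_le hN0 (by exact_mod_cast hp.1.1.le)
  refine h4.trans ?_
  rw [le_div_iff₀ hlog]
  calc (P.card : ℝ) * (1 / N) * Real.log N = (P.card * Real.log N) / N := by ring
    _ ≤ (N * Real.log 4) / N := by gcongr
    _ = Real.log 4 := by field_simp

/-- Chebyshev: the numbers `κ r` -/
theorem kappa_bound (w : ℕ → ℕ) (r : ℕ) (hw : 2 ≤ w r) (a b : ℕ) (ha : 1 ≤ a) (hb : 1 ≤ b) :
    ∑ p ∈ (PB w r).filter (fun p => 2 * (p * a) < 3 * b ∧ 2 * b < 3 * (p * a)), (1 : ℝ) / p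
      ≤ 4 / Real.log (w r) := by
  set N := max (w r) (2 * b / (3 * a)) with hN
  have hN2 : 2 ≤ N := hw.trans (le_max_left _ _)
  have hsub : (PB w r).filter (fun p => 2 * (p * a) < 3 * b ∧ 2 * b < 3 * (p * a))
      ⊆ (Ioc N (2 * N)).filter Nat.Prime ∪ (Ioc (2 * N) (2 * (2 * N))).filter Nat.Prime := by
    intro p hp
    rw [mem_filter, mem_PB] at hp
    obtain ⟨⟨⟨h1, h2⟩, h3⟩, h4, h5⟩ := hp
    have h6 : 2 * b / (3 * a) < p := by
      rw [Nat.div_lt_iff_lt_mul (by omega)]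
      calc 2 * b < 3 * (p * a) := h5
        _ = p * (3 * a) := by ring
    have h7 : N < p := max_lt h1 h6
    have h8 : p ≤ 4 * N := by
      have h9 : 2 * b / (3 * a) ≤ N := le_max_right _ _
      have h10 : 2 * b < 3 * a * (N + 1) := by
        have := Nat.lt_mul_div_succ (2 * b) (show 0 < 3 * a by omega)
        calc 2 * b < 3 * a * (2 * b / (3 * a) + 1) := this
          _ ≤ 3 * a * (N + 1) := by gcongr
      have h11 : 4 * (p * a) < 9 * (N + 1) * a := by
        calc 4 * (p * a) = 2 * (2 * (p * a)) := by ring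
          _ < 2 * (3 * b) := by omega
          _ = 3 * (2 * b) := by ring
          _ < 3 * (3 * a * (N + 1)) := by omega
          _ = 9 * (N + 1) * a := by ring
      have h12 : 4 * p < 9 * (N + 1) := by
        have : 4 * p * a < 9 * (N + 1) * a := by
          calc 4 * p * a = 4 * (p * a) := by ring
            _ < _ := h11
        exact lt_of_mul_lt_mul_right this (Nat.zero_le a)
      omega
    rw [mem_union, mem_filter, mem_filter, mem_Ioc, mem_Ioc]
    by_cases h : p ≤ 2 * N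
    · exact Or.inl ⟨⟨h7, h⟩, h3⟩
    · exact Or.inr ⟨⟨by omega, by omega⟩, h3⟩
  have hlogw : 0 < Real.log (w r) := Real.log_pos (by exact_mod_cast hw)
  have hlogN : Real.log (w r) ≤ Real.log N :=
    Real.log_le_log (by positivity) (by exact_mod_cast le_max_left _ _)
  have hlogN2 : Real.log (w r) ≤ Real.log ((2 * N : ℕ) : ℝ) :=
    hlogN.trans (Real.log_le_log (by positivity) (by push_cast; linarith [show (0:ℝ) ≤ N by positivity]))
  have hlog4 : Real.log 4 ≤ 2 := by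
    have h1 : Real.log 4 = 2 * Real.log 2 := by
      rw [show (4 : ℝ) = 2 ^ 2 by norm_num, Real.log_pow]
      norm_num
    have h2 := Real.log_two_lt_d9
    linarith
  calc ∑ p ∈ (PB w r).filter (fun p => 2 * (p * a) < 3 * b ∧ 2 * b < 3 * (p * a)), (1 : ℝ) / p
      ≤ ∑ p ∈ (Ioc N (2 * N)).filter Nat.Prime ∪ (Ioc (2 * N) (2 * (2 * N))).filter Nat.Prime,
          (1 : ℝ) / p := sum_le_sum_of_subset_of_nonneg hsub (fun _ _ _ => by positivity)
    _ ≤ ∑ p ∈ (Ioc N (2 * N)).filter Nat.Prime, (1 : ℝ) / p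
        + ∑ p ∈ (Ioc (2 * N) (2 * (2 * N))).filter Nat.Prime, (1 : ℝ) / p := by
        rw [← sum_union_inter]
        have : 0 ≤ ∑ p ∈ (Ioc N (2 * N)).filter Nat.Prime
            ∩ (Ioc (2 * N) (2 * (2 * N))).filter Nat.Prime, (1 : ℝ) / p :=
          sum_nonneg (fun _ _ => by positivity)
        linarith
    _ ≤ Real.log 4 / Real.log N + Real.log 4 / Real.log ((2 * N : ℕ) : ℝ) :=
        add_le_add (sum_inv_dyadic N hN2) (sum_inv_dyadic (2 * N) (by omega))
    _ ≤ 2 / Real.log (w r) + 2 / Real.log (w r) := by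
        gcongr
    _ = 4 / Real.log (w r) := by ring

/-! ### cardinalities -/

theorem card_low {w : ℕ → ℕ} (hw : Monotone w) {R : ℕ} {c : ℕ → ℕ} {A : Finset ℕ}
    (hA : A ∈ Fam w R c) : ∀ k ≤ R, (A.filter (fun x => x ≤ w k)).card = ∑ i ∈ range k, c i := by
  rw [mem_Fam] at hA
  intro k
  induction k with
  | zero =>
    intro _
    rw [range_zero, sum_empty, card_eq_zero, filter_eq_empty_iff]
    intro x hx
    have := (mem_PA.1 (hA.1 hx)).1.1
    omega
  | succ k ih =>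
    intro hk
    have h1 := ih (by omega)
    rw [sum_range_succ, ← h1, ← hA.2 k (by omega), ← card_union_of_disjoint]
    · congr 1
      ext x
      simp only [mem_filter, mem_union, mem_inter, mem_PB]
      constructor
      · rintro ⟨hx, hx2⟩
        by_cases h : x ≤ w k
        · exact Or.inl ⟨hx, h⟩
        · exact Or.inr ⟨hx, ⟨by omega, hx2⟩, (mem_PA.1 (hA.1 hx)).2⟩
      · rintro (⟨hx, hx2⟩ | ⟨hx, hx2, _⟩)
        · exact ⟨hx, hx2.trans (hw (Nat.le_succ k))⟩
        · exact ⟨hx, hx2.2⟩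
    · rw [disjoint_left]
      intro x hx hx'
      rw [mem_filter] at hx
      rw [mem_inter, mem_PB] at hx'
      omega

theorem card_Fam {w : ℕ → ℕ} (hw : Monotone w) {R : ℕ} {c : ℕ → ℕ} {A : Finset ℕ}
    (hA : A ∈ Fam w R c) : A.card = ∑ i ∈ range R, c i := by
  rw [← card_low hw hA R le_rfl]
  congr 1
  rw [mem_Fam] at hA
  symm
  rw [filter_eq_self]
  intro x hx
  exact (mem_PA.1 (hA.1 hx)).1.2

/-- pairs of subsets of `A` which agree above the block `r` -/
def TT (w : ℕ → ℕ) (r : ℕ) (A : Finset ℕ) : Finset (Finset ℕ × Finset ℕ) :=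
  (A.powerset ×ˢ A.powerset).filter
    (fun x => x.1.filter (fun q => w (r + 1) < q) = x.2.filter (fun q => w (r + 1) < q))

theorem card_TT {w : ℕ → ℕ} (hw : Monotone w) {R : ℕ} {c : ℕ → ℕ} {A : Finset ℕ} {m r : ℕ}
    (hr : r < R) (hc : ∀ i, c i ≤ m) (hA : A ∈ Fam w R c) :
    (TT w r A).card ≤ 2 ^ (R * m) * 2 ^ ((r + 1) * m) := by
  have h1 : A.card ≤ R * m := by
    rw [card_Fam hw hA]
    refine (sum_le_card_nsmul _ _ m (fun i _ => hc i)).trans ?_
    simp
  have h2 : (A.filter (fun x => x ≤ w (r + 1))).card ≤ (r + 1) * m := by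
    rw [card_low hw hA (r + 1) hr]
    refine (sum_le_card_nsmul _ _ m (fun i _ => hc i)).trans ?_
    simp
  have h3 : (TT w r A).card
      ≤ (A.powerset ×ˢ (A.filter (fun x => x ≤ w (r + 1))).powerset).card := by
    refine card_le_card_of_injOn
      (fun x => (x.1, x.2.filter (fun q => q ≤ w (r + 1)))) ?_ ?_
    · rintro ⟨D, E⟩ hx
      simp only [TT, coe_filter, mem_product, mem_powerset, Set.mem_ofPred_eq] at hx
      simp only [coe_product, Set.mem_prod, mem_coe, mem_powerset]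
      exact ⟨hx.1.1, filter_subset_filter _ hx.1.2⟩
    · rintro ⟨D, E⟩ hx ⟨D', E'⟩ hx' heq
      simp only [TT, coe_filter, mem_product, mem_powerset, Set.mem_ofPred_eq] at hx hx'
      simp only [Prod.mk.injEq] at heq ⊢
      refine ⟨heq.1, ?_⟩
      obtain ⟨h4, h5⟩ := heq
      subst h4
      have h6 := hx.2.symm.trans hx'.2
      ext q
      by_cases hq : q ≤ w (r + 1)
      · have := congrArg (fun s => q ∈ s) h5
        simpa [hq] using this
      · have := congrArg (fun s => q ∈ s) h6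
        simpa [Nat.lt_of_not_le hq] using this
  refine h3.trans ?_
  rw [card_product, card_powerset, card_powerset]
  exact Nat.mul_le_mul (Nat.pow_le_pow_right (by norm_num) h1)
    (Nat.pow_le_pow_right (by norm_num) h2)

/-- the condition on `p` when `D = insert p D'` and `E` are close -/
def Cond (p : ℕ) (D E : Finset ℕ) : Prop :=
  2 * (p * ∏ q ∈ D, q) < 3 * ∏ q ∈ E, q ∧ 2 * ∏ q ∈ E, q < 3 * (p * ∏ q ∈ D, q)

instance (p : ℕ) (D E : Finset ℕ) : Decidable (Cond p D E) := by unfold Cond; infer_instance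

/-- close pairs of subsets of `A` whose largest difference `p` is in the first set -/
def QQ (A : Finset ℕ) (p : ℕ) : Finset (Finset ℕ × Finset ℕ) :=
  (A.powerset ×ˢ A.powerset).filter
    (fun x => Close x.1 x.2 ∧ p ∈ x.1 ∧ p ∉ x.2 ∧
      x.1.filter (fun q => p < q) = x.2.filter (fun q => p < q))

theorem Close_symm {D E : Finset ℕ} (h : Close D E) : Close E D := ⟨h.2, h.1⟩

theorem filter_eq_of_max {D E : Finset ℕ} {p : ℕ}
    (h : ∀ q, q ∈ symmDiff D E → q ≤ p) :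
    D.filter (fun q => p < q) = E.filter (fun q => p < q) := by
  ext q
  simp only [mem_filter]
  constructor
  · rintro ⟨h1, h2⟩
    refine ⟨?_, h2⟩
    by_contra h3
    have := h q (mem_symmDiff.2 (Or.inl ⟨h1, h3⟩))
    omega
  · rintro ⟨h1, h2⟩
    refine ⟨?_, h2⟩
    by_contra h3
    have := h q (mem_symmDiff.2 (Or.inr ⟨h1, h3⟩))
    omega

theorem NC_le (A : Finset ℕ) : NC A ≤ 2 ^ A.card + 2 * ∑ p ∈ A, (QQ A p).card := by
  classical
  have h1 : (A.powerset ×ˢ A.powerset).filter (fun x => Close x.1 x.2)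
      ⊆ A.powerset.image (fun D => (D, D)) ∪ (A.biUnion (fun p => QQ A p)
        ∪ (A.biUnion (fun p => QQ A p)).image Prod.swap) := by
    rintro ⟨D, E⟩ hx
    rw [mem_filter, mem_product, mem_powerset, mem_powerset] at hx
    obtain ⟨⟨hD, hE⟩, hc⟩ := hx
    rw [mem_union, mem_union]
    by_cases hDE : D = E
    · left
      rw [mem_image]
      exact ⟨D, mem_powerset.2 hD, by rw [hDE]⟩
    · right
      have hne : (symmDiff D E).Nonempty := by
        rw [nonempty_iff_ne_empty]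
        intro h
        exact hDE (symmDiff_eq_bot.1 (by simpa using h))
      set p := (symmDiff D E).max' hne with hp
      have hpm : p ∈ symmDiff D E := max'_mem _ _
      have hmax : ∀ q, q ∈ symmDiff D E → q ≤ p := fun q hq => le_max' _ _ hq
      have hfil := filter_eq_of_max hmax
      rcases mem_symmDiff.1 hpm with ⟨h2, h3⟩ | ⟨h2, h3⟩
      · left
        rw [mem_biUnion]
        refine ⟨p, hD h2, ?_⟩
        rw [QQ, mem_filter, mem_product, mem_powerset, mem_powerset]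
        exact ⟨⟨hD, hE⟩, hc, h2, h3, hfil⟩
      · right
        rw [mem_image]
        refine ⟨(E, D), ?_, rfl⟩
        rw [mem_biUnion]
        refine ⟨p, hE h2, ?_⟩
        rw [QQ, mem_filter, mem_product, mem_powerset, mem_powerset]
        exact ⟨⟨hE, hD⟩, Close_symm hc, h2, h3, hfil.symm⟩
  have h2 : (A.biUnion (fun p => QQ A p)).card ≤ ∑ p ∈ A, (QQ A p).card := card_biUnion_le
  calc NC A ≤ (A.powerset.image (fun D => (D, D)) ∪ (A.biUnion (fun p => QQ A p)
        ∪ (A.biUnion (fun p => QQ A p)).image Prod.swap)).card := card_le_card h1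
    _ ≤ (A.powerset.image (fun D => (D, D))).card + ((A.biUnion (fun p => QQ A p)).card
        + ((A.biUnion (fun p => QQ A p)).image Prod.swap).card) :=
        (card_union_le _ _).trans (Nat.add_le_add_left (card_union_le _ _) _)
    _ ≤ 2 ^ A.card + (∑ p ∈ A, (QQ A p).card + ∑ p ∈ A, (QQ A p).card) := by
        refine Nat.add_le_add ?_ (Nat.add_le_add h2 (card_image_le.trans h2))
        exact card_image_le.trans (card_powerset A).le
    _ = 2 ^ A.card + 2 * ∑ p ∈ A, (QQ A p).card := by ring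

theorem QQ_le {w : ℕ → ℕ} {r p : ℕ} {A : Finset ℕ} (hp : p ∈ PB w r) :
    (QQ A p).card ≤ ((TT w r (A.erase p)).filter (fun x => Cond p x.1 x.2)).card := by
  classical
  refine card_le_card_of_injOn (fun x => (x.1.erase p, x.2)) ?_ ?_
  · rintro ⟨D, E⟩ hx
    simp only [QQ, coe_filter, mem_product, mem_powerset, Set.mem_ofPred_eq] at hx
    obtain ⟨⟨hD, hE⟩, hc, hpD, hpE, hfil⟩ := hx
    simp only [TT, coe_filter, mem_filter, mem_product, mem_powerset, Set.mem_ofPred_eq]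
    have hprod : p * ∏ q ∈ D.erase p, q = ∏ q ∈ D, q := mul_prod_erase D (fun q => q) hpD
    refine ⟨⟨⟨erase_subset_erase _ hD, fun q hq => mem_erase.2 ⟨?_, hE hq⟩⟩, ?_⟩, ?_⟩
    · rintro rfl
      exact hpE hq
    · have hpw := (mem_PB.1 hp).1.2
      ext q
      have h1 := congrArg (fun s => q ∈ s) hfil
      simp only [mem_filter, eq_iff_iff] at h1
      simp only [mem_filter, mem_erase]
      constructor
      · rintro ⟨⟨h2, h3⟩, h4⟩
        exact ⟨(h1.1 ⟨h3, by omega⟩).1, h4⟩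
      · rintro ⟨h3, h4⟩
        exact ⟨⟨by omega, (h1.2 ⟨h3, by omega⟩).1⟩, h4⟩
    · simp only [Cond]
      rw [hprod]
      exact hc
  · rintro ⟨D, E⟩ hx ⟨D', E'⟩ hx' heq
    simp only [QQ, coe_filter, mem_product, mem_powerset, Set.mem_ofPred_eq] at hx hx'
    simp only [Prod.mk.injEq] at heq ⊢
    refine ⟨?_, heq.2⟩
    rw [← insert_erase hx.2.2.1, ← insert_erase hx'.2.2.1, heq.1]

/-- double counting with a weight -/
theorem Wt_doubleG (w : ℕ → ℕ) (hw : Monotone w) (R : ℕ) (c : ℕ → ℕ) (r j : ℕ) (hr : r < R)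
    (G : Finset ℕ → ℕ → ℝ) :
    ∑ A ∈ Fam w R (Function.update c r (j + 1)), ∑ p ∈ A ∩ PB w r, wt A * G (A.erase p) p
      = ∑ A ∈ Fam w R (Function.update c r j), ∑ p ∈ PB w r \ A, wt A * ((1 : ℝ) / p * G A p) := by
  rw [sum_sigma', sum_sigma']
  symm
  refine sum_bij' (i := fun x _ => ⟨insert x.2 x.1, x.2⟩) (j := fun x _ => ⟨x.1.erase x.2, x.2⟩)
    ?_ ?_ ?_ ?_ ?_
  · rintro ⟨A, p⟩ hx
    simp only [mem_sigma, mem_sdiff] at hx ⊢
    exact ⟨Fam_insert hw hr hx.1 hx.2.1 hx.2.2, by simp [hx.2.1]⟩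
  · rintro ⟨A, p⟩ hx
    simp only [mem_sigma, mem_sdiff, mem_inter] at hx ⊢
    exact ⟨Fam_erase hw hx.1 hx.2.2 hx.2.1, hx.2.2, by simp⟩
  · rintro ⟨A, p⟩ hx
    simp only [mem_sigma, mem_sdiff] at hx
    simp [erase_insert hx.2.2]
  · rintro ⟨A, p⟩ hx
    simp only [mem_sigma, mem_inter] at hx
    simp [insert_erase hx.2.1]
  · rintro ⟨A, p⟩ hx
    simp only [mem_sigma, mem_sdiff] at hx
    simp only [wt]
    rw [prod_insert hx.2.2, erase_insert hx.2.2]
    ring

/-- a sum over `A` splits into the blocks -/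
theorem sum_blocks {w : ℕ → ℕ} (hw : Monotone w) {R : ℕ} {A : Finset ℕ} (hA : A ⊆ PA w R)
    (g : ℕ → ℝ) (hg : ∀ p, 0 ≤ g p) :
    ∑ p ∈ A, g p ≤ ∑ r ∈ range R, ∑ p ∈ A ∩ PB w r, g p := by
  classical
  have h1 : A ⊆ (range R).biUnion (fun r => A ∩ PB w r) := by
    intro p hp
    have h2 := mem_PA.1 (hA hp)
    rw [mem_biUnion]
    -- the block of `p`
    have h3 : ∃ k, p ≤ w k := ⟨R, h2.1.2⟩
    have h4 := Nat.find_spec h3
    have h5 : Nat.find h3 ≠ 0 := by
      intro h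
      rw [h] at h4
      omega
    have h6 : ¬ p ≤ w (Nat.find h3 - 1) := Nat.find_min h3 (by omega)
    have h7 : Nat.find h3 ≤ R := Nat.find_min' h3 h2.1.2
    refine ⟨Nat.find h3 - 1, mem_range.2 (by omega), mem_inter.2 ⟨hp, mem_PB.2 ⟨⟨by omega, ?_⟩, h2.2⟩⟩⟩
    rw [Nat.sub_add_cancel (by omega)]
    exact h4
  refine (sum_le_sum_of_subset_of_nonneg h1 (fun p _ _ => hg p)).trans ?_
  rw [sum_biUnion]
  intro i _ j _ hij
  rw [Function.onFun, disjoint_left]
  intro x hx hx'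
  exact hij (PB_disj hw (mem_inter.1 hx).2 (mem_inter.1 hx').2)

/-- the inner sum over the new prime -/
theorem inner_le {w : ℕ → ℕ} {R r : ℕ} {c : ℕ → ℕ} {A : Finset ℕ} {κ : ℝ}
    (hA : A ∈ Fam w R c) 
    (hκ : ∀ a b : ℕ, 1 ≤ a → 1 ≤ b →
      ∑ p ∈ (PB w r).filter (fun p => 2 * (p * a) < 3 * b ∧ 2 * b < 3 * (p * a)), (1 : ℝ) / p ≤ κ) :
    ∑ p ∈ PB w r \ A, (1 : ℝ) / p * (((TT w r A).filter (fun x => Cond p x.1 x.2)).card : ℝ)
      ≤ (TT w r A).card * κ := by
  classical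
  have h1 : ∀ p, (1 : ℝ) / p * (((TT w r A).filter (fun x => Cond p x.1 x.2)).card : ℝ)
      = ∑ x ∈ TT w r A, if Cond p x.1 x.2 then (1 : ℝ) / p else 0 := by
    intro p
    rw [← sum_filter, sum_const, nsmul_eq_mul, mul_comm]
  simp_rw [h1]
  rw [sum_comm]
  rw [← nsmul_eq_mul]
  refine sum_le_card_nsmul _ _ _ (fun x hx => ?_)
  rw [TT, mem_filter, mem_product, mem_powerset, mem_powerset] at hx
  have hpos : ∀ D : Finset ℕ, D ⊆ A → 1 ≤ ∏ q ∈ D, q := by
    intro D hD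
    refine Nat.one_le_iff_ne_zero.2 (prod_ne_zero_iff.2 fun q hq => ?_)
    exact (mem_PA.1 ((mem_Fam.1 hA).1 (hD hq))).2.ne_zero
  refine le_trans ?_ (hκ _ _ (hpos x.1 hx.1.1) (hpos x.2 hx.1.2))
  rw [← sum_filter]
  refine sum_le_sum_of_subset_of_nonneg ?_ (fun _ _ _ => by positivity)
  intro p hp
  rw [mem_filter, mem_sdiff] at hp
  rw [mem_filter]
  exact ⟨hp.1.1, hp.2⟩

/-- `κ r` bounds the prime sums over short multiplicative intervals in block `r` -/
theorem close_sum (w : ℕ → ℕ) (hw : Monotone w) (R m : ℕ) (hm : 1 ≤ m) (s : ℝ) (hs : 0 < s)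
    (hw0 : 1 ≤ w 0) (hS : ∀ r < R, s ≤ ∑ p ∈ PB w r, (1 : ℝ) / p - (m : ℝ) / w 0)
    (κ : ℕ → ℝ)
    (hκ : ∀ r < R, ∀ a b : ℕ, 1 ≤ a → 1 ≤ b →
      ∑ p ∈ (PB w r).filter (fun p => 2 * (p * a) < 3 * b ∧ 2 * b < 3 * (p * a)), (1 : ℝ) / p ≤ κ r) :
    ∑ A ∈ Fam w R (fun _ => m), wt A * (NC A : ℝ)
      ≤ Wt w R (fun _ => m) * 2 ^ (R * m)
        * (1 + ∑ r ∈ range R, 2 * (m / s) * 2 ^ ((r + 1) * m) * κ r) := by
  obtain ⟨j, rfl⟩ : ∃ j, m = j + 1 := ⟨m - 1, by omega⟩
  set F := Fam w R (fun _ => j + 1) with hF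
  set W := Wt w R (fun _ => j + 1) with hW
  have hκ0 : ∀ r < R, 0 ≤ κ r := fun r hr =>
    (sum_nonneg (fun _ _ => by positivity)).trans (hκ r hr 1 1 le_rfl le_rfl)
  -- the new prime in block `r`
  have hblock : ∀ r < R, ∑ A ∈ F, ∑ p ∈ A ∩ PB w r, wt A * ((QQ A p).card : ℝ)
      ≤ ((j + 1 : ℕ) / s) * W * (2 ^ (R * (j + 1)) * 2 ^ ((r + 1) * (j + 1)) * κ r) := by
    intro r hr
    have hupd : Function.update (fun _ : ℕ => j + 1) r (j + 1) = fun _ => j + 1 :=
      Function.update_eq_self r (fun _ : ℕ => j + 1)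
    have h1 : ∑ A ∈ F, ∑ p ∈ A ∩ PB w r, wt A * ((QQ A p).card : ℝ)
        ≤ ∑ A ∈ F, ∑ p ∈ A ∩ PB w r, wt A *
          (((TT w r (A.erase p)).filter (fun x => Cond p x.1 x.2)).card : ℝ) := by
      refine sum_le_sum fun A _ => sum_le_sum fun p hp => ?_
      refine mul_le_mul_of_nonneg_left ?_ (wt_nonneg A)
      exact_mod_cast QQ_le (mem_inter.1 hp).2
    have h2 := Wt_doubleG w hw R (fun _ => j + 1) r j hr
      (fun A p => (((TT w r A).filter (fun x => Cond p x.1 x.2)).card : ℝ))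
    rw [hupd] at h2
    refine h1.trans (h2.le.trans ?_)
    have h3 : ∀ A ∈ Fam w R (Function.update (fun _ : ℕ => j + 1) r j),
        ∑ p ∈ PB w r \ A, wt A * ((1 : ℝ) / p *
          (((TT w r A).filter (fun x => Cond p x.1 x.2)).card : ℝ))
        ≤ wt A * (2 ^ (R * (j + 1)) * 2 ^ ((r + 1) * (j + 1)) * κ r) := by
      intro A hA
      rw [← mul_sum]
      refine mul_le_mul_of_nonneg_left ?_ (wt_nonneg A)
      refine (inner_le hA (hκ r hr)).trans ?_
      refine mul_le_mul_of_nonneg_right ?_ (hκ0 r hr)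
      have h4 : (TT w r A).card ≤ 2 ^ (R * (j + 1)) * 2 ^ ((r + 1) * (j + 1)) := by
        refine card_TT hw hr (fun i => ?_) hA
        by_cases hi : i = r
        · subst hi; simp
        · simp [Function.update_of_ne hi]
      exact_mod_cast h4
    refine (sum_le_sum h3).trans ?_
    rw [← sum_mul]
    refine mul_le_mul_of_nonneg_right ?_
      (mul_nonneg (by positivity) (hκ0 r hr))
    -- `Wt (m - 1) ≤ (m / s) Wt m`
    have h5 := Wt_step w hw R (fun _ => j + 1) r j hr hw0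
    rw [hupd] at h5
    have h6 : s ≤ ∑ p ∈ PB w r, (1 : ℝ) / p - (j : ℝ) / w 0 := by
      refine (hS r hr).trans ?_
      have h7 : (0 : ℝ) < w 0 := by exact_mod_cast hw0
      have h8 : (j : ℝ) / w 0 ≤ ((j + 1 : ℕ) : ℝ) / w 0 := by
        gcongr
        push_cast
        linarith
      linarith
    have h9 : s * Wt w R (Function.update (fun _ : ℕ => j + 1) r j) ≤ (j + 1) * W :=
      (mul_le_mul_of_nonneg_right h6 (Wt_nonneg _ _ _)).trans h5
    have h10 : ∑ A ∈ Fam w R (Function.update (fun _ : ℕ => j + 1) r j), wt A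
        = Wt w R (Function.update (fun _ : ℕ => j + 1) r j) := rfl
    rw [h10, div_mul_eq_mul_div, le_div_iff₀ hs]
    push_cast
    linarith
  have h1 : ∀ A ∈ F, wt A * (NC A : ℝ) ≤ wt A * 2 ^ (R * (j + 1))
      + 2 * ∑ r ∈ range R, ∑ p ∈ A ∩ PB w r, wt A * ((QQ A p).card : ℝ) := by
    intro A hA
    have h2 : (NC A : ℝ) ≤ 2 ^ A.card + 2 * ∑ p ∈ A, ((QQ A p).card : ℝ) := by
      exact_mod_cast NC_le A
    have h3 : A.card = R * (j + 1) := by
      rw [card_Fam hw hA]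
      simp
    have h4 : ∑ p ∈ A, ((QQ A p).card : ℝ) ≤ ∑ r ∈ range R, ∑ p ∈ A ∩ PB w r,
        ((QQ A p).card : ℝ) := sum_blocks hw (mem_Fam.1 hA).1 _ (fun _ => by positivity)
    rw [h3] at h2
    calc wt A * (NC A : ℝ) ≤ wt A * (2 ^ (R * (j + 1)) + 2 * ∑ r ∈ range R, ∑ p ∈ A ∩ PB w r,
        ((QQ A p).card : ℝ)) := mul_le_mul_of_nonneg_left (by linarith) (wt_nonneg A)
      _ = _ := by
        simp_rw [mul_add, ← mul_sum]
        ring
  calc ∑ A ∈ F, wt A * (NC A : ℝ)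
      ≤ ∑ A ∈ F, (wt A * 2 ^ (R * (j + 1))
        + 2 * ∑ r ∈ range R, ∑ p ∈ A ∩ PB w r, wt A * ((QQ A p).card : ℝ)) := sum_le_sum h1
    _ = W * 2 ^ (R * (j + 1)) + 2 * ∑ r ∈ range R, ∑ A ∈ F, ∑ p ∈ A ∩ PB w r,
          wt A * ((QQ A p).card : ℝ) := by
        rw [sum_add_distrib, ← sum_mul, ← mul_sum, sum_comm]
        rfl
    _ ≤ W * 2 ^ (R * (j + 1)) + 2 * ∑ r ∈ range R,
          ((j + 1 : ℕ) / s) * W * (2 ^ (R * (j + 1)) * 2 ^ ((r + 1) * (j + 1)) * κ r) := by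
        gcongr with r hr
        exact hblock r (mem_range.1 hr)
    _ = W * 2 ^ (R * (j + 1))
        * (1 + ∑ r ∈ range R, 2 * (((j + 1 : ℕ) : ℝ) / s) * 2 ^ ((r + 1) * (j + 1)) * κ r) := by
        rw [mul_add (W * 2 ^ (R * (j + 1))) 1, mul_one, mul_sum, mul_sum]
        congr 1
        refine sum_congr rfl fun r _ => ?_
        ring

end Pool.MWL
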