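import Mathlib

/-!
# MWL/Cnt: sums of `∏_p (u_p + [p ∣ m] c_p)` over intervals
-/

namespace Pool.MWL

open Finset

theorem card_mult (a b D : ℕ) (hab : a ≤ b) (hD : 1 ≤ D) :
    |(((Ioc a b).filter (fun m => D ∣ m)).card : ℝ) - ((b : ℝ) - a) / D| ≤ 1 := by
  have hD0 : (0 : ℝ) < D := by exact_mod_cast hD
  have h1 := Nat.Ioc_filter_dvd_card_eq_div b D
  have h2 := Nat.Ioc_filter_dvd_card_eq_div a D
  have h3 : (Ioc 0 b).filter (fun m => D ∣ m) = (Ioc 0 a).filter (fun m => D ∣ m) ∪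
      (Ioc a b).filter (fun m => D ∣ m) := by
    ext m
    simp only [mem_filter, mem_Ioc, mem_union]
    constructor
    · rintro ⟨⟨h4, h5⟩, h6⟩
      by_cases hc : m ≤ a
      · left; exact ⟨⟨h4, hc⟩, h6⟩
      · right; exact ⟨⟨by omega, h5⟩, h6⟩
    · rintro (⟨⟨h4, h5⟩, h6⟩ | ⟨⟨h4, h5⟩, h6⟩)
      · exact ⟨⟨h4, h5.trans hab⟩, h6⟩
      · exact ⟨⟨by omega, h5⟩, h6⟩
  have h4 : Disjoint ((Ioc 0 a).filter (fun m => D ∣ m)) ((Ioc a b).filter (fun m => D ∣ m)) := by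
    rw [Finset.disjoint_left]
    intro m hm hm'
    rw [mem_filter, mem_Ioc] at hm hm'
    omega
  rw [h3, card_union_of_disjoint h4, h2] at h1
  have h5 : (((Ioc a b).filter (fun m => D ∣ m)).card : ℝ) = (b / D : ℕ) - (a / D : ℕ) := by
    have : (((a / D : ℕ) : ℝ)) + ((Ioc a b).filter (fun m => D ∣ m)).card = (b / D : ℕ) := by
      exact_mod_cast h1
    linarith
  rw [h5]
  have h6 : ((b / D : ℕ) : ℝ) ≤ (b : ℝ) / D := Nat.cast_div_le
  have h7 : ((a / D : ℕ) : ℝ) ≤ (a : ℝ) / D := Nat.cast_div_le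
  have h8 : (b : ℝ) / D < (b / D : ℕ) + 1 := by
    have := Nat.lt_floor_add_one ((b : ℝ) / D)
    rwa [Nat.floor_div_eq_div] at this
  have h9 : (a : ℝ) / D < (a / D : ℕ) + 1 := by
    have := Nat.lt_floor_add_one ((a : ℝ) / D)
    rwa [Nat.floor_div_eq_div] at this
  rw [sub_div, abs_le]
  constructor <;> linarith

theorem prod_dvd_iff (P : Finset ℕ) (hP : ∀ p ∈ P, p.Prime) (m : ℕ) :
    (∏ p ∈ P, p) ∣ m ↔ ∀ p ∈ P, p ∣ m := by
  constructor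
  · intro h p hp
    exact (Finset.dvd_prod_of_mem _ hp).trans h
  · intro h
    exact Finset.prod_primes_dvd m (fun p hp => (hP p hp).prime) h

theorem sum_prod_uc (P : Finset ℕ) (hP : ∀ p ∈ P, p.Prime) (u c : ℕ → ℝ) (a b : ℕ) (hab : a ≤ b) :
    |∑ m ∈ Ioc a b, ∏ p ∈ P, (u p + if p ∣ m then c p else 0)
      - ((b : ℝ) - a) * ∏ p ∈ P, (u p + c p / p)| ≤ ∏ p ∈ P, (|u p| + |c p|) := by
  classical
  -- expand
  have h1 : ∀ m : ℕ, ∏ p ∈ P, (u p + if p ∣ m then c p else 0)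
      = ∑ D ∈ P.powerset, (∏ p ∈ D, u p) * (∏ p ∈ P \ D, c p) *
          (if (∏ p ∈ P \ D, p) ∣ m then (1 : ℝ) else 0) := by
    intro m
    rw [Finset.prod_add]
    refine Finset.sum_congr rfl fun D hD => ?_
    rw [mul_assoc]
    congr 1
    have hiff := prod_dvd_iff (P \ D) (fun p hp => hP p (Finset.mem_sdiff.1 hp).1) m
    by_cases h : ∀ p ∈ P \ D, p ∣ m
    · rw [if_pos (hiff.2 h), mul_one]
      exact Finset.prod_congr rfl fun p hp => if_pos (h p hp)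
    · rw [if_neg (fun h' => h (hiff.1 h')), mul_zero]
      push Not at h
      obtain ⟨p, hp, hpm⟩ := h
      exact Finset.prod_eq_zero hp (if_neg hpm)
  have h2 : ∏ p ∈ P, (u p + c p / p) = ∑ D ∈ P.powerset, (∏ p ∈ D, u p) * (∏ p ∈ P \ D, c p) *
      (1 / ((∏ p ∈ P \ D, p : ℕ) : ℝ)) := by
    rw [Finset.prod_add]
    refine Finset.sum_congr rfl fun D hD => ?_
    rw [mul_assoc]
    congr 1
    rw [Finset.prod_div_distrib, Nat.cast_prod, mul_one_div]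
  have h3 : ∏ p ∈ P, (|u p| + |c p|) = ∑ D ∈ P.powerset, |(∏ p ∈ D, u p) * (∏ p ∈ P \ D, c p)| := by
    rw [Finset.prod_add]
    refine Finset.sum_congr rfl fun D hD => ?_
    rw [abs_mul, Finset.abs_prod, Finset.abs_prod]
  simp only [h1]
  rw [Finset.sum_comm, h2, h3, Finset.mul_sum, ← Finset.sum_sub_distrib]
  refine (Finset.abs_sum_le_sum_abs _ _).trans (Finset.sum_le_sum fun D hD => ?_)
  rw [← Finset.mul_sum]
  have h4 : ∑ m ∈ Ioc a b, (if (∏ p ∈ P \ D, p) ∣ m then (1 : ℝ) else 0)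
      = (((Ioc a b).filter (fun m => (∏ p ∈ P \ D, p) ∣ m)).card : ℝ) := by
    rw [Finset.sum_boole]
  rw [h4]
  have h5 := card_mult a b (∏ p ∈ P \ D, p) hab
    (Finset.prod_pos fun p hp => (hP p (Finset.mem_sdiff.1 hp).1).pos)
  have h6 : (∏ p ∈ D, u p) * (∏ p ∈ P \ D, c p) *
        (((Ioc a b).filter (fun m => (∏ p ∈ P \ D, p) ∣ m)).card : ℝ)
      - ((b : ℝ) - a) * ((∏ p ∈ D, u p) * (∏ p ∈ P \ D, c p) *
        (1 / ((∏ p ∈ P \ D, p : ℕ) : ℝ)))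
      = ((∏ p ∈ D, u p) * (∏ p ∈ P \ D, c p)) *
        ((((Ioc a b).filter (fun m => (∏ p ∈ P \ D, p) ∣ m)).card : ℝ)
          - ((b : ℝ) - a) / ((∏ p ∈ P \ D, p : ℕ) : ℝ)) := by
    ring
  rw [h6, abs_mul]
  exact mul_le_of_le_one_right (abs_nonneg _) h5

end Pool.MWL
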