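import Mathlib

/-!
# MWL: the size of the window length of Erdos for integers with a divisor in (n, 2n)

Definitions for the combinatorial part of the lower bound.
`PB w r` = the primes in `(w r, w (r+1)]`, `PA w R` = all primes in `(w 0, w R]`,
`Fam w R c` = the sets `A` of primes in `(w 0, w R]` with exactly `c r` elements in block `r` for all `r < R`,
`wt A = ∏_{p ∈ A} 1/p`, `Wt w R c = ∑_{A ∈ Fam w R c} wt A`.
-/

namespace Pool.MWL

open Finset

/-- primes of block `r` -/
def PB (w : ℕ → ℕ) (r : ℕ) : Finset ℕ := (Ioc (w r) (w (r + 1))).filter Nat.Prime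

/-- all primes of the blocks `0, ..., R - 1` -/
def PA (w : ℕ → ℕ) (R : ℕ) : Finset ℕ := (Ioc (w 0) (w R)).filter Nat.Prime

/-- sets with `c r` primes of block `r` for each `r < R` -/
def Fam (w : ℕ → ℕ) (R : ℕ) (c : ℕ → ℕ) : Finset (Finset ℕ) :=
  (PA w R).powerset.filter (fun A => ∀ r < R, (A ∩ PB w r).card = c r)

/-- `∏_{p ∈ A} 1/p` -/
noncomputable def wt (A : Finset ℕ) : ℝ := ∏ p ∈ A, (1 : ℝ) / p

/-- the total weight of `Fam` -/
noncomputable def Wt (w : ℕ → ℕ) (R : ℕ) (c : ℕ → ℕ) : ℝ := ∑ A ∈ Fam w R c, wt A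

/-- `D` and `E` have products within a factor `3/2` -/
def Close (D E : Finset ℕ) : Prop := 2 * ∏ p ∈ D, p < 3 * ∏ p ∈ E, p ∧ 2 * ∏ p ∈ E, p < 3 * ∏ p ∈ D, p

instance (D E : Finset ℕ) : Decidable (Close D E) := by unfold Close; infer_instance

/-- the close pairs of subsets of `A` -/
def NC (A : Finset ℕ) : ℕ := ((A.powerset ×ˢ A.powerset).filter (fun x => Close x.1 x.2)).card

end Pool.MWL
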