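import Pool.Agent.MWL.Win

/-!
# MWL/Lin: for fixed `0 < ε < 1` the window length has order `n` exactly; for `ε ≥ 1` it is `0`
-/

set_option autoImplicit false

open Finset

namespace Pool.MWL.Lin

/-! ### Counting multiples in an interval -/

lemma card_dvd_Ioc (a b r : ℕ) (hab : a ≤ b) :
    #{m ∈ Ioc a b | r ∣ m} = b / r - a / r := by
  have h1 := Nat.Ioc_filter_dvd_card_eq_div b r
  have h2 := Nat.Ioc_filter_dvd_card_eq_div a r
  have h3 : ({m ∈ Ioc 0 b | r ∣ m} : Finset ℕ) = {m ∈ Ioc 0 a | r ∣ m} ∪ {m ∈ Ioc a b | r ∣ m} := by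
    ext m
    simp only [mem_filter, mem_Ioc, mem_union]
    constructor
    · rintro ⟨⟨h, h'⟩, h''⟩
      by_cases hm : m ≤ a
      · left; exact ⟨⟨h, hm⟩, h''⟩
      · right; exact ⟨⟨by omega, h'⟩, h''⟩
    · rintro (⟨⟨h, h'⟩, h''⟩ | ⟨⟨h, h'⟩, h''⟩)
      · exact ⟨⟨h, by omega⟩, h''⟩
      · exact ⟨⟨by omega, h'⟩, h''⟩
  have h4 : Disjoint ({m ∈ Ioc 0 a | r ∣ m} : Finset ℕ) {m ∈ Ioc a b | r ∣ m} := by
    rw [Finset.disjoint_left]
    intro m hm hm'
    simp only [mem_filter, mem_Ioc] at hm hm'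
    omega
  rw [h3, Finset.card_union_of_disjoint h4, h2] at h1
  omega

lemma div_sub_div_le (a b r : ℕ) (hr : 0 < r) (hab : a ≤ b) :
    ((b / r - a / r : ℕ) : ℝ) ≤ ((b - a : ℕ) : ℝ) / r + 1 := by
  have hr' : (0 : ℝ) < r := by exact_mod_cast hr
  have h1 : b / r ≤ (b - a) / r + a / r + 1 := by
    have e1 := Nat.div_add_mod a r
    have e2 := Nat.div_add_mod b r
    have e3 := Nat.div_add_mod (b - a) r
    have e4 := Nat.mod_lt a hr
    have e5 := Nat.mod_lt b hr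
    have e6 := Nat.mod_lt (b - a) hr
    by_contra hcon
    push Not at hcon
    have h4 : r * ((b - a) / r + a / r + 1 + 1) ≤ r * (b / r) := Nat.mul_le_mul_left r hcon
    have h5 : r * ((b - a) / r + a / r + 1 + 1) = r * ((b - a) / r) + r * (a / r) + r + r := by ring
    rw [h5] at h4
    generalize r * ((b - a) / r) = X at *
    generalize r * (a / r) = Y at *
    generalize r * (b / r) = Z at *
    generalize (b - a) % r = X' at *
    generalize a % r = Y' at *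
    generalize b % r = Z' at *
    omega
  have h2 : ((b / r - a / r : ℕ) : ℝ) ≤ (((b - a) / r + 1 : ℕ) : ℝ) := by
    have h0 : b / r - a / r ≤ (b - a) / r + 1 := by
      rw [Nat.sub_le_iff_le_add]
      linarith
    exact_mod_cast h0
  have h3 : (((b - a) / r : ℕ) : ℝ) ≤ ((b - a : ℕ) : ℝ) / r := Nat.cast_div_le
  push_cast at h2 h3 ⊢
  linarith

lemma le_div_sub_div (a b r : ℕ) (hr : 0 < r) (hab : a ≤ b) :
    ((b - a : ℕ) : ℝ) / r - 1 ≤ ((b / r - a / r : ℕ) : ℝ) := by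
  have hr' : (0 : ℝ) < r := by exact_mod_cast hr
  have e1 := Nat.div_add_mod a r
  have e2 := Nat.div_add_mod b r
  have e3 := Nat.mod_lt a hr
  have e4 := Nat.mod_lt b hr
  have h0 : a / r ≤ b / r := Nat.div_le_div_right hab
  rw [Nat.cast_sub h0, Nat.cast_sub hab, sub_le_iff_le_add, div_le_iff₀ hr']
  have e1' : (r : ℝ) * ((a / r : ℕ) : ℝ) + ((a % r : ℕ) : ℝ) = a := by exact_mod_cast e1
  have e2' : (r : ℝ) * ((b / r : ℕ) : ℝ) + ((b % r : ℕ) : ℝ) = b := by exact_mod_cast e2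
  have e4' : ((b % r : ℕ) : ℝ) < r := by exact_mod_cast e4
  have e3' : (0 : ℝ) ≤ ((a % r : ℕ) : ℝ) := by positivity
  nlinarith

lemma card_dvd_le (a b r : ℕ) (hr : 0 < r) (hab : a ≤ b) :
    (#{m ∈ Ioc a b | r ∣ m} : ℝ) ≤ ((b - a : ℕ) : ℝ) / r + 1 := by
  rw [card_dvd_Ioc a b r hab]
  exact div_sub_div_le a b r hr hab

lemma le_card_dvd (a b r : ℕ) (hr : 0 < r) (hab : a ≤ b) :
    ((b - a : ℕ) : ℝ) / r - 1 ≤ (#{m ∈ Ioc a b | r ∣ m} : ℝ) := by
  rw [card_dvd_Ioc a b r hab]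
  exact le_div_sub_div a b r hr hab

/-! ### A Turán-type variance bound -/

/-- `f_P(m)`: the number of primes of `P` dividing `m`. -/
noncomputable def fP (P : Finset ℕ) (m : ℕ) : ℝ := (#{p ∈ P | p ∣ m} : ℝ)

/-- `h_P(m)`: the number of primes of `P` whose square divides `m`. -/
noncomputable def hP (P : Finset ℕ) (m : ℕ) : ℝ := (#{p ∈ P | p ^ 2 ∣ m} : ℝ)

/-- `μ_P = ∑_{p ∈ P} 1/p`. -/
noncomputable def muP (P : Finset ℕ) : ℝ := ∑ p ∈ P, (1 : ℝ) / p

lemma fP_eq (P : Finset ℕ) (m : ℕ) : fP P m = ∑ p ∈ P, if p ∣ m then (1 : ℝ) else 0 := by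
  unfold fP
  rw [Finset.sum_boole]

lemma hP_eq (P : Finset ℕ) (m : ℕ) : hP P m = ∑ p ∈ P, if p ^ 2 ∣ m then (1 : ℝ) else 0 := by
  unfold hP
  rw [Finset.sum_boole]

lemma sum_fP_ge (P : Finset ℕ) (hP : ∀ p ∈ P, p.Prime) (a b : ℕ) (hab : a ≤ b) :
    ((b - a : ℕ) : ℝ) * muP P - #P ≤ ∑ m ∈ Ioc a b, fP P m := by
  have : ∑ m ∈ Ioc a b, fP P m = ∑ p ∈ P, (#{m ∈ Ioc a b | p ∣ m} : ℝ) := by
    simp_rw [fP_eq]
    rw [Finset.sum_comm]
    refine Finset.sum_congr rfl fun p _ => ?_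
    rw [Finset.sum_boole]
  rw [this]
  have h2 : ((b - a : ℕ) : ℝ) * muP P - #P = ∑ p ∈ P, (((b - a : ℕ) : ℝ) / p - 1) := by
    rw [Finset.sum_sub_distrib, muP, Finset.mul_sum]
    simp [div_eq_mul_inv]
  rw [h2]
  exact Finset.sum_le_sum fun p hp => le_card_dvd a b p (hP p hp).pos hab

lemma sum_fP_sq_le (P : Finset ℕ) (hP : ∀ p ∈ P, p.Prime) (a b : ℕ) (hab : a ≤ b) :
    ∑ m ∈ Ioc a b, (fP P m) ^ 2 ≤ ((b - a : ℕ) : ℝ) * (muP P ^ 2 + muP P) + (#P : ℝ) ^ 2 := by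
  have h1 : ∑ m ∈ Ioc a b, (fP P m) ^ 2
      = ∑ p ∈ P, ∑ q ∈ P, (#{m ∈ Ioc a b | p ∣ m ∧ q ∣ m} : ℝ) := by
    have : ∀ m, (fP P m) ^ 2 = ∑ p ∈ P, ∑ q ∈ P, if (p ∣ m ∧ q ∣ m) then (1 : ℝ) else 0 := by
      intro m
      rw [sq, fP_eq, Finset.sum_mul_sum]
      refine Finset.sum_congr rfl fun p _ => Finset.sum_congr rfl fun q _ => ?_
      by_cases h : p ∣ m <;> by_cases h' : q ∣ m <;> simp [h, h']
    simp_rw [this]
    rw [Finset.sum_comm]
    refine Finset.sum_congr rfl fun p _ => ?_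
    rw [Finset.sum_comm]
    refine Finset.sum_congr rfl fun q _ => ?_
    rw [Finset.sum_boole]
  have hH : (0 : ℝ) ≤ ((b - a : ℕ) : ℝ) := by positivity
  have h2 : ∀ p ∈ P, ∀ q ∈ P, (#{m ∈ Ioc a b | p ∣ m ∧ q ∣ m} : ℝ) ≤
      ((b - a : ℕ) : ℝ) * ((1 : ℝ) / p * (1 / q) + if p = q then (1 : ℝ) / p else 0) + 1 := by
    intro p hp q hq
    have hp0 : (0 : ℝ) < p := by exact_mod_cast (hP p hp).pos
    have hq0 : (0 : ℝ) < q := by exact_mod_cast (hP q hq).pos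
    by_cases hpq : p = q
    · subst hpq
      have : (#{m ∈ Ioc a b | p ∣ m ∧ p ∣ m} : ℝ) = (#{m ∈ Ioc a b | p ∣ m} : ℝ) := by simp
      rw [this]
      refine (card_dvd_le a b p (hP p hp).pos hab).trans ?_
      simp only [if_true]
      have : 0 ≤ ((b - a : ℕ) : ℝ) * ((1 : ℝ) / p * (1 / p)) := by positivity
      have h3 : ((b - a : ℕ) : ℝ) / p = ((b - a : ℕ) : ℝ) * (1 / p) := by ring
      rw [h3]
      linarith
    · have hcop : Nat.Coprime p q := (Nat.coprime_primes (hP p hp) (hP q hq)).2 hpq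
      have : ({m ∈ Ioc a b | p ∣ m ∧ q ∣ m} : Finset ℕ) = {m ∈ Ioc a b | p * q ∣ m} := by
        refine Finset.filter_congr fun m _ => ?_
        constructor
        · rintro ⟨h, h'⟩
          exact hcop.mul_dvd_of_dvd_of_dvd h h'
        · intro h
          exact ⟨(Dvd.intro _ rfl).trans h, (Dvd.intro_left _ rfl).trans h⟩
      rw [this]
      refine (card_dvd_le a b (p * q) (Nat.mul_pos (hP p hp).pos (hP q hq).pos) hab).trans ?_
      simp only [hpq, if_false, add_zero]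
      apply le_of_eq
      push_cast
      field_simp
  rw [h1]
  calc ∑ p ∈ P, ∑ q ∈ P, (#{m ∈ Ioc a b | p ∣ m ∧ q ∣ m} : ℝ)
      ≤ ∑ p ∈ P, ∑ q ∈ P, (((b - a : ℕ) : ℝ) * ((1 : ℝ) / p * (1 / q) + if p = q then (1 : ℝ) / p else 0) + 1) :=
        Finset.sum_le_sum fun p hp => Finset.sum_le_sum fun q hq => h2 p hp q hq
    _ = ((b - a : ℕ) : ℝ) * (muP P ^ 2 + muP P) + (#P : ℝ) ^ 2 := by
        simp_rw [Finset.sum_add_distrib, ← Finset.mul_sum, Finset.sum_add_distrib]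
        have e1 : ∑ p ∈ P, ∑ q ∈ P, (1 : ℝ) / p * (1 / q) = muP P ^ 2 := by
          rw [sq, muP, Finset.sum_mul_sum]
        have e2 : ∑ p ∈ P, ∑ q ∈ P, (if p = q then (1 : ℝ) / p else 0) = muP P := by
          rw [muP]
          refine Finset.sum_congr rfl fun p hp => ?_
          rw [Finset.sum_ite_eq]
          simp [hp]
        rw [e1, e2]
        simp
        ring

lemma muP_nonneg (P : Finset ℕ) : 0 ≤ muP P := by
  unfold muP; positivity

lemma muP_le_card (P : Finset ℕ) : muP P ≤ #P := by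
  unfold muP
  calc ∑ p ∈ P, (1 : ℝ) / p ≤ ∑ p ∈ P, (1 : ℝ) := by
        refine Finset.sum_le_sum fun p _ => ?_
        rcases Nat.eq_zero_or_pos p with h | h
        · simp [h]
        · rw [div_le_one (by exact_mod_cast h)]
          exact_mod_cast h
    _ = #P := by simp

/-- Turán's inequality for a set of `b - a` consecutive integers. -/
lemma turan (P : Finset ℕ) (hP : ∀ p ∈ P, p.Prime) (a b : ℕ) (hab : a ≤ b) :
    ∑ m ∈ Ioc a b, (fP P m - muP P) ^ 2 ≤ ((b - a : ℕ) : ℝ) * muP P + 3 * (#P : ℝ) ^ 2 := by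
  have h1 := sum_fP_sq_le P hP a b hab
  have h2 := sum_fP_ge P hP a b hab
  have h3 : ∑ m ∈ Ioc a b, (fP P m - muP P) ^ 2
      = ∑ m ∈ Ioc a b, (fP P m) ^ 2 - 2 * muP P * ∑ m ∈ Ioc a b, fP P m
        + ((b - a : ℕ) : ℝ) * muP P ^ 2 := by
    simp_rw [sub_sq]
    rw [Finset.sum_add_distrib, Finset.sum_sub_distrib, Finset.mul_sum]
    simp only [sum_const, Nat.card_Ioc, nsmul_eq_mul]
    congr 2
    refine Finset.sum_congr rfl fun m _ => ?_
    ring
  rw [h3]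
  have h4 := muP_nonneg P
  have h5 := muP_le_card P
  have h6 : muP P * (((b - a : ℕ) : ℝ) * muP P - #P) ≤ muP P * ∑ m ∈ Ioc a b, fP P m :=
    mul_le_mul_of_nonneg_left h2 h4
  have h7 : muP P * (#P : ℝ) ≤ (#P : ℝ) * (#P : ℝ) := mul_le_mul_of_nonneg_right h5 (by positivity)
  nlinarith

lemma card_bad_le (P : Finset ℕ) (hP : ∀ p ∈ P, p.Prime) (hμ : 0 < muP P) (a b : ℕ) (hab : a ≤ b) :
    (#{m ∈ Ioc a b | muP P / 4 ≤ |fP P m - muP P|} : ℝ)
      ≤ 16 * (((b - a : ℕ) : ℝ) * muP P + 3 * (#P : ℝ) ^ 2) / muP P ^ 2 := by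
  rw [le_div_iff₀ (by positivity)]
  have h1 : ∑ m ∈ Ioc a b with muP P / 4 ≤ |fP P m - muP P|, (muP P / 4) ^ 2
      ≤ ∑ m ∈ Ioc a b, (fP P m - muP P) ^ 2 := by
    calc ∑ m ∈ Ioc a b with muP P / 4 ≤ |fP P m - muP P|, (muP P / 4) ^ 2
        ≤ ∑ m ∈ Ioc a b with muP P / 4 ≤ |fP P m - muP P|, (fP P m - muP P) ^ 2 := by
          refine Finset.sum_le_sum fun m hm => ?_
          rw [mem_filter] at hm
          rw [← sq_abs (fP P m - muP P)]
          exact pow_le_pow_left₀ (by positivity) hm.2 2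
      _ ≤ ∑ m ∈ Ioc a b, (fP P m - muP P) ^ 2 :=
          Finset.sum_le_sum_of_subset_of_nonneg (Finset.filter_subset _ _) (fun _ _ _ => sq_nonneg _)
  rw [Finset.sum_const, nsmul_eq_mul] at h1
  have h2 := turan P hP a b hab
  nlinarith

lemma sum_inv_sq_le_one (P : Finset ℕ) (hP : ∀ p ∈ P, p.Prime) :
    ∑ p ∈ P, (1 : ℝ) / (p : ℝ) ^ 2 ≤ 1 := by
  set N := P.sup id + 1 with hN
  have hsub : P ⊆ Ioc 1 N := by
    intro p hp
    rw [mem_Ioc]
    refine ⟨(hP p hp).one_lt, ?_⟩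
    have := Finset.le_sup (f := id) hp
    simp only [id] at this
    omega
  calc ∑ p ∈ P, (1 : ℝ) / (p : ℝ) ^ 2 ≤ ∑ p ∈ Ioc 1 N, (1 : ℝ) / (p : ℝ) ^ 2 :=
        Finset.sum_le_sum_of_subset_of_nonneg hsub (fun _ _ _ => by positivity)
    _ = ∑ p ∈ Ioc 1 N, ((p : ℝ) ^ 2)⁻¹ := by simp
    _ ≤ ((1 : ℕ) : ℝ)⁻¹ - (N : ℝ)⁻¹ := sum_Ioc_inv_sq_le_sub one_ne_zero (by omega)
    _ ≤ 1 := by
        have : (0 : ℝ) ≤ (N : ℝ)⁻¹ := by positivity
        simp

lemma card_sq_bad_le (P : Finset ℕ) (hP' : ∀ p ∈ P, p.Prime) (hμ : 0 < muP P) (a b : ℕ)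
    (hab : a ≤ b) :
    (#{m ∈ Ioc a b | muP P / 4 ≤ hP P m} : ℝ) ≤ 4 * (((b - a : ℕ) : ℝ) + #P) / muP P := by
  rw [le_div_iff₀ hμ]
  have h0 : ∑ m ∈ Ioc a b, hP P m ≤ ((b - a : ℕ) : ℝ) + #P := by
    have : ∑ m ∈ Ioc a b, hP P m = ∑ p ∈ P, (#{m ∈ Ioc a b | p ^ 2 ∣ m} : ℝ) := by
      simp_rw [hP_eq]
      rw [Finset.sum_comm]
      refine Finset.sum_congr rfl fun p _ => ?_
      rw [Finset.sum_boole]
    rw [this]
    calc ∑ p ∈ P, (#{m ∈ Ioc a b | p ^ 2 ∣ m} : ℝ)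
        ≤ ∑ p ∈ P, (((b - a : ℕ) : ℝ) * (1 / (p : ℝ) ^ 2) + 1) := by
          refine Finset.sum_le_sum fun p hp => ?_
          have := card_dvd_le a b (p ^ 2) (pow_pos (hP' p hp).pos 2) hab
          push_cast at this
          rw [mul_one_div]
          exact this
      _ = ((b - a : ℕ) : ℝ) * ∑ p ∈ P, (1 / (p : ℝ) ^ 2) + #P := by
          rw [Finset.sum_add_distrib, Finset.mul_sum]; simp
      _ ≤ ((b - a : ℕ) : ℝ) * 1 + #P := by
          have := sum_inv_sq_le_one P hP'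
          have h' : (0 : ℝ) ≤ ((b - a : ℕ) : ℝ) := by positivity
          gcongr
      _ = ((b - a : ℕ) : ℝ) + #P := by ring
  have h1 : ∑ m ∈ Ioc a b with muP P / 4 ≤ hP P m, (muP P / 4) ≤ ∑ m ∈ Ioc a b, hP P m := by
    calc ∑ m ∈ Ioc a b with muP P / 4 ≤ hP P m, (muP P / 4)
        ≤ ∑ m ∈ Ioc a b with muP P / 4 ≤ hP P m, hP P m := by
          refine Finset.sum_le_sum fun m hm => ?_
          rw [mem_filter] at hm
          exact hm.2
      _ ≤ ∑ m ∈ Ioc a b, hP P m :=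
          Finset.sum_le_sum_of_subset_of_nonneg (Finset.filter_subset _ _)
            (fun _ _ _ => by unfold hP; positivity)
  rw [Finset.sum_const, nsmul_eq_mul] at h1
  linarith

lemma fP_add_le (P : Finset ℕ) (d k : ℕ) :
    fP P d + fP P k ≤ fP P (d * k) + hP P (d * k) := by
  rw [fP_eq, fP_eq, fP_eq, hP_eq, ← Finset.sum_add_distrib, ← Finset.sum_add_distrib]
  refine Finset.sum_le_sum fun p hp => ?_
  by_cases h1 : p ∣ d
  · by_cases h2 : p ∣ k
    · have h3 : p ^ 2 ∣ d * k := by rw [sq]; exact mul_dvd_mul h1 h2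
      have h4 : p ∣ d * k := h1.mul_right k
      simp [h1, h2, h3, h4]
    · have h4 : p ∣ d * k := h1.mul_right k
      simp only [h1, h2, h4, if_true, if_false]
      have : (0 : ℝ) ≤ if p ^ 2 ∣ d * k then (1 : ℝ) else 0 := by split_ifs <;> norm_num
      linarith
  · by_cases h2 : p ∣ k
    · have h4 : p ∣ d * k := h2.mul_left d
      simp only [h1, h2, h4, if_true, if_false]
      have : (0 : ℝ) ≤ if p ^ 2 ∣ d * k then (1 : ℝ) else 0 := by split_ifs <;> norm_num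
      linarith
    · simp only [h1, h2, if_false]
      have : (0 : ℝ) ≤ if p ^ 2 ∣ d * k then (1 : ℝ) else 0 := by split_ifs <;> norm_num
      have : (0 : ℝ) ≤ if p ∣ d * k then (1 : ℝ) else 0 := by split_ifs <;> norm_num
      linarith

open Classical in
lemma windowCount_eq (n x y : ℕ) :
    windowCount n x y = #{m ∈ Ioo x (x + y) | HasMediumDivisor n m} := by
  unfold windowCount
  rw [← Set.ncard_coe_finset]
  congr 1
  ext m
  simp [and_assoc]

/-- The counting inequality behind the linear upper bound. -/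
lemma windowCount_le (P : Finset ℕ) (hP' : ∀ p ∈ P, p.Prime) (hμ : 0 < muP P) (n x y : ℕ)
    (hn : 0 < n) :
    (windowCount n x y : ℝ) ≤
      16 * ((y : ℝ) * muP P + 3 * (#P : ℝ) ^ 2) / muP P ^ 2
      + 4 * ((y : ℝ) + #P) / muP P
      + 16 * ((n : ℝ) * muP P + 3 * (#P : ℝ) ^ 2) / muP P ^ 2 * ((y : ℝ) / n + 1)
      + n * (16 * (((y : ℝ) / n + 1) * muP P + 3 * (#P : ℝ) ^ 2) / muP P ^ 2) := by
  classical
  have hn' : (0 : ℝ) < n := by exact_mod_cast hn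
  set μ := muP P with hμdef
  set A1 : Finset ℕ := {m ∈ Ioc x (x + y) | μ / 4 ≤ |fP P m - μ|} with hA1
  set A2 : Finset ℕ := {m ∈ Ioc x (x + y) | μ / 4 ≤ hP P m} with hA2
  set D : Finset ℕ := {d ∈ Ioc n (2 * n) | μ / 4 ≤ |fP P d - μ|} with hD
  set A3 : Finset ℕ := D.biUnion (fun d => {m ∈ Ioc x (x + y) | d ∣ m}) with hA3
  set A4 : Finset ℕ := (Ioc n (2 * n)).biUnion
    (fun d => {m ∈ Ioc x (x + y) | d ∣ m ∧ μ / 4 ≤ |fP P (m / d) - μ|}) with hA4
  have hsub : ({m ∈ Ioo x (x + y) | HasMediumDivisor n m} : Finset ℕ) ⊆ A1 ∪ A2 ∪ A3 ∪ A4 := by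
    intro m hm
    rw [mem_filter, mem_Ioo] at hm
    obtain ⟨⟨hm1, hm2⟩, d, hd1, hd2, hd3⟩ := hm
    have hmI : m ∈ Ioc x (x + y) := by rw [mem_Ioc]; omega
    have hdI : d ∈ Ioc n (2 * n) := by rw [mem_Ioc]; omega
    by_contra hcon
    simp only [mem_union, not_or] at hcon
    obtain ⟨⟨⟨h1, h2⟩, h3⟩, h4⟩ := hcon
    rw [hA1, mem_filter, not_and] at h1
    rw [hA2, mem_filter, not_and] at h2
    rw [hA3, mem_biUnion] at h3
    rw [hA4, mem_biUnion] at h4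
    push Not at h3 h4
    have h1' := h1 hmI
    have h2' := h2 hmI
    push Not at h1' h2'
    have h3' : |fP P d - μ| < μ / 4 := by
      by_contra hc
      push Not at hc
      refine h3 d ?_ ?_
      · rw [hD, mem_filter]; exact ⟨hdI, hc⟩
      · rw [mem_filter]; exact ⟨hmI, hd3⟩
    have h4' : |fP P (m / d) - μ| < μ / 4 := by
      by_contra hc
      push Not at hc
      refine h4 d hdI ?_
      rw [mem_filter]
      exact ⟨hmI, hd3, hc⟩
    have h5 := fP_add_le P d (m / d)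
    rw [Nat.mul_div_cancel' hd3] at h5
    rw [abs_lt] at h1' h3' h4'
    linarith [h1'.1, h1'.2, h3'.1, h3'.2, h4'.1, h4'.2]
  have hcard : (windowCount n x y : ℝ) ≤ #A1 + #A2 + #A3 + #A4 := by
    rw [windowCount_eq]
    have h1 := Finset.card_le_card hsub
    have h2 : #(A1 ∪ A2 ∪ A3 ∪ A4) ≤ #A1 + #A2 + #A3 + #A4 := by
      refine (Finset.card_union_le _ _).trans ?_
      gcongr
      refine (Finset.card_union_le _ _).trans ?_
      gcongr
      exact Finset.card_union_le _ _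
    exact_mod_cast h1.trans h2
  have hxy : x ≤ x + y := by omega
  have hxy' : ((x + y - x : ℕ) : ℝ) = (y : ℝ) := by
    congr 1; omega
  have hb1 : (#A1 : ℝ) ≤ 16 * ((y : ℝ) * μ + 3 * (#P : ℝ) ^ 2) / μ ^ 2 := by
    have := card_bad_le P hP' hμ x (x + y) hxy
    rw [hxy'] at this
    exact this
  have hb2 : (#A2 : ℝ) ≤ 4 * ((y : ℝ) + #P) / μ := by
    have := card_sq_bad_le P hP' hμ x (x + y) hxy
    rw [hxy'] at this
    exact this
  have hbD : (#D : ℝ) ≤ 16 * ((n : ℝ) * μ + 3 * (#P : ℝ) ^ 2) / μ ^ 2 := by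
    have := card_bad_le P hP' hμ n (2 * n) (by omega)
    have e : ((2 * n - n : ℕ) : ℝ) = (n : ℝ) := by congr 1; omega
    rw [e] at this
    exact this
  have hb3 : (#A3 : ℝ) ≤ 16 * ((n : ℝ) * μ + 3 * (#P : ℝ) ^ 2) / μ ^ 2 * ((y : ℝ) / n + 1) := by
    have h1 : (#A3 : ℝ) ≤ ∑ d ∈ D, (#{m ∈ Ioc x (x + y) | d ∣ m} : ℝ) := by
      have := Finset.card_biUnion_le (s := D) (t := fun d => {m ∈ Ioc x (x + y) | d ∣ m})
      rw [hA3]
      exact_mod_cast this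
    refine h1.trans ?_
    have h2 : ∀ d ∈ D, (#{m ∈ Ioc x (x + y) | d ∣ m} : ℝ) ≤ (y : ℝ) / n + 1 := by
      intro d hd
      rw [hD, mem_filter, mem_Ioc] at hd
      have h3 := card_dvd_le x (x + y) d (by omega) hxy
      rw [hxy'] at h3
      refine h3.trans ?_
      have : (n : ℝ) ≤ d := by exact_mod_cast hd.1.1.le
      gcongr
    calc ∑ d ∈ D, (#{m ∈ Ioc x (x + y) | d ∣ m} : ℝ) ≤ ∑ d ∈ D, ((y : ℝ) / n + 1) :=
          Finset.sum_le_sum h2
      _ = #D * ((y : ℝ) / n + 1) := by rw [Finset.sum_const, nsmul_eq_mul]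
      _ ≤ _ := by gcongr
  have hb4 : (#A4 : ℝ) ≤ n * (16 * (((y : ℝ) / n + 1) * μ + 3 * (#P : ℝ) ^ 2) / μ ^ 2) := by
    have h1 : (#A4 : ℝ) ≤ ∑ d ∈ Ioc n (2 * n),
        (#{m ∈ Ioc x (x + y) | d ∣ m ∧ μ / 4 ≤ |fP P (m / d) - μ|} : ℝ) := by
      have := Finset.card_biUnion_le (s := Ioc n (2 * n))
        (t := fun d => {m ∈ Ioc x (x + y) | d ∣ m ∧ μ / 4 ≤ |fP P (m / d) - μ|})
      rw [hA4]
      exact_mod_cast this
    refine h1.trans ?_
    have h2 : ∀ d ∈ Ioc n (2 * n),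
        (#{m ∈ Ioc x (x + y) | d ∣ m ∧ μ / 4 ≤ |fP P (m / d) - μ|} : ℝ)
          ≤ 16 * (((y : ℝ) / n + 1) * μ + 3 * (#P : ℝ) ^ 2) / μ ^ 2 := by
      intro d hd
      rw [mem_Ioc] at hd
      have hd0 : 0 < d := by omega
      have h3 : #{m ∈ Ioc x (x + y) | d ∣ m ∧ μ / 4 ≤ |fP P (m / d) - μ|}
          ≤ #{k ∈ Ioc (x / d) ((x + y) / d) | μ / 4 ≤ |fP P k - μ|} := by
        refine Finset.card_le_card_of_injOn (fun m => m / d) ?_ ?_
        · intro m hm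
          rw [mem_coe, mem_filter, mem_Ioc] at hm
          rw [mem_coe, mem_filter, mem_Ioc]
          obtain ⟨⟨h5, h6⟩, h7, h8⟩ := hm
          refine ⟨⟨?_, Nat.div_le_div_right h6⟩, h8⟩
          obtain ⟨k, rfl⟩ := h7
          show x / d < d * k / d
          rw [Nat.mul_div_cancel_left k hd0, Nat.div_lt_iff_lt_mul hd0, mul_comm]
          exact h5
        · intro m hm m' hm' heq
          rw [mem_coe, mem_filter] at hm hm'
          simp only at heq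
          rw [← Nat.mul_div_cancel' hm.2.1, ← Nat.mul_div_cancel' hm'.2.1, heq]
      have h4 := card_bad_le P hP' hμ (x / d) ((x + y) / d) (Nat.div_le_div_right hxy)
      have h5 := div_sub_div_le x (x + y) d hd0 hxy
      rw [hxy'] at h5
      have h6 : (y : ℝ) / d + 1 ≤ (y : ℝ) / n + 1 := by
        have : (n : ℝ) ≤ d := by exact_mod_cast hd.1.le
        gcongr
      calc (#{m ∈ Ioc x (x + y) | d ∣ m ∧ μ / 4 ≤ |fP P (m / d) - μ|} : ℝ)
          ≤ (#{k ∈ Ioc (x / d) ((x + y) / d) | μ / 4 ≤ |fP P k - μ|} : ℝ) := by exact_mod_cast h3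
        _ ≤ _ := h4
        _ ≤ _ := by
            have h7 : (((x + y) / d - x / d : ℕ) : ℝ) ≤ (y : ℝ) / n + 1 := h5.trans h6
            gcongr
    calc ∑ d ∈ Ioc n (2 * n), (#{m ∈ Ioc x (x + y) | d ∣ m ∧ μ / 4 ≤ |fP P (m / d) - μ|} : ℝ)
        ≤ ∑ d ∈ Ioc n (2 * n), (16 * (((y : ℝ) / n + 1) * μ + 3 * (#P : ℝ) ^ 2) / μ ^ 2) :=
          Finset.sum_le_sum h2
      _ = n * (16 * (((y : ℝ) / n + 1) * μ + 3 * (#P : ℝ) ^ 2) / μ ^ 2) := by
          rw [Finset.sum_const, Nat.card_Ioc, nsmul_eq_mul]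
          congr 2
          omega
  linarith

lemma exists_primes_mu_ge (T : ℝ) : ∃ P : Finset ℕ, (∀ p ∈ P, p.Prime) ∧ T ≤ muP P := by
  classical
  by_contra hcon
  push Not at hcon
  apply not_summable_one_div_on_primes
  refine summable_of_sum_le (c := T) ?_ ?_
  · intro i
    exact Set.indicator_nonneg (fun _ _ => by positivity) _
  · intro u
    have h1 := hcon (u.filter Nat.Prime) (fun p hp => (mem_filter.1 hp).2)
    refine le_trans (le_of_eq ?_) h1.le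
    unfold muP
    rw [Finset.sum_filter]
    refine Finset.sum_congr rfl fun i _ => ?_
    by_cases hi : i.Prime
    · simp [Set.indicator, hi]
    · simp [Set.indicator, hi]

/-- A linear window length suffices, uniformly in the position `x`. -/
lemma exists_linear_bound (ε : ℝ) (hε : 0 < ε) :
    ∃ C N : ℕ, ∀ n : ℕ, N ≤ n → ∀ x y : ℕ, C * n ≤ y → (windowCount n x y : ℝ) ≤ ε * y := by
  obtain ⟨P, hP', hT⟩ := exists_primes_mu_ge (max (152 / ε) 1)
  have hμ1 : 1 ≤ muP P := (le_max_right _ _).trans hT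
  have hμ2 : 152 / ε ≤ muP P := (le_max_left _ _).trans hT
  have hμ : 0 < muP P := by linarith
  refine ⟨1 + 3 * (#P) ^ 2, 1 + 3 * (#P) ^ 2, fun n hn x y hy => ?_⟩
  have hn0 : 0 < n := by omega
  refine (windowCount_le P hP' hμ n x y hn0).trans ?_
  set μ := muP P with hμdef
  set κ : ℝ := 3 * (#P : ℝ) ^ 2 with hκ
  have hnR : (0 : ℝ) < n := by exact_mod_cast hn0
  have hκ0 : 0 ≤ κ := by positivity
  have hκn : κ ≤ n := by
    have h1 : ((1 + 3 * (#P) ^ 2 : ℕ) : ℝ) ≤ (n : ℝ) := by exact_mod_cast hn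
    push_cast at h1
    linarith
  have hPκ : (#P : ℝ) ≤ κ := by
    have h1 : (#P) ≤ 3 * (#P) ^ 2 := by nlinarith [Nat.zero_le (#P)]
    have h2 : ((#P : ℕ) : ℝ) ≤ ((3 * (#P) ^ 2 : ℕ) : ℝ) := by exact_mod_cast h1
    push_cast at h2
    exact h2
  have hy' : (1 + κ) * n ≤ y := by
    have h1 : (((1 + 3 * (#P) ^ 2) * n : ℕ) : ℝ) ≤ (y : ℝ) := by exact_mod_cast hy
    push_cast at h1
    exact h1
  have hny : (n : ℝ) ≤ y := by nlinarith
  have hyR : (0 : ℝ) < y := by linarith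
  have hκy : n * κ ≤ y := by nlinarith
  have hκy' : κ ≤ y := hκn.trans hny
  have hyn1 : (1 : ℝ) ≤ (y : ℝ) / n := by rw [le_div_iff₀ hnR]; linarith
  have t1 : 16 * ((y : ℝ) * μ + κ) / μ ^ 2 ≤ 32 * (y : ℝ) / μ := by
    rw [div_le_div_iff₀ (by positivity) hμ]
    have : κ ≤ y * μ := by nlinarith
    nlinarith [mul_pos hμ hμ, mul_nonneg (mul_nonneg hyR.le hμ.le) hμ.le]
  have t2 : 4 * ((y : ℝ) + #P) / μ ≤ 8 * (y : ℝ) / μ := by
    rw [div_le_div_iff_of_pos_right hμ]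
    linarith
  have t3 : 16 * ((n : ℝ) * μ + κ) / μ ^ 2 * ((y : ℝ) / n + 1) ≤ 64 * (y : ℝ) / μ := by
    have h1 : 16 * ((n : ℝ) * μ + κ) / μ ^ 2 ≤ 32 * n / μ := by
      rw [div_le_div_iff₀ (by positivity) hμ]
      have : κ ≤ n * μ := by nlinarith
      nlinarith [mul_pos hμ hμ, mul_nonneg (mul_nonneg hnR.le hμ.le) hμ.le]
    have h2 : (y : ℝ) / n + 1 ≤ 2 * ((y : ℝ) / n) := by linarith
    calc 16 * ((n : ℝ) * μ + κ) / μ ^ 2 * ((y : ℝ) / n + 1)
        ≤ (32 * n / μ) * (2 * ((y : ℝ) / n)) := by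
          apply mul_le_mul h1 h2 (by positivity) (by positivity)
      _ = 64 * (y : ℝ) / μ := by field_simp; ring
  have t4 : n * (16 * (((y : ℝ) / n + 1) * μ + κ) / μ ^ 2) ≤ 48 * (y : ℝ) / μ := by
    have h1 : n * (16 * (((y : ℝ) / n + 1) * μ + κ) / μ ^ 2)
        = 16 * ((y + n) * μ + n * κ) / μ ^ 2 := by field_simp
    rw [h1, div_le_div_iff₀ (by positivity) hμ]
    have h2 : n * κ ≤ y * μ := by nlinarith
    have h3 : (n : ℝ) * μ ≤ y * μ := by nlinarith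
    have h4 : ((y : ℝ) + n) * μ + n * κ ≤ 3 * (y * μ) := by nlinarith
    nlinarith [mul_le_mul_of_nonneg_right h4 hμ.le]
  have hfin : 152 * (y : ℝ) / μ ≤ ε * y := by
    rw [div_le_iff₀ hμ]
    rw [div_le_iff₀ hε] at hμ2
    nlinarith
  have hsum : 32 * (y : ℝ) / μ + 8 * (y : ℝ) / μ + 64 * (y : ℝ) / μ + 48 * (y : ℝ) / μ
      = 152 * (y : ℝ) / μ := by ring
  linarith

/-- Just above a common multiple of `1, …, 2n` there are `n - 1` consecutive integers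
all having a medium divisor. -/
lemma le_windowCount (n y : ℕ) (hy : n ≤ y) :
    n - 1 ≤ windowCount n ((2 * n).factorial + n) y := by
  classical
  rw [windowCount_eq]
  have h1 : #((Ioo n (2 * n)).image (fun d => (2 * n).factorial + d)) = n - 1 := by
    rw [Finset.card_image_of_injective _ (fun a b h => by simpa using h), Nat.card_Ioo]
    omega
  rw [← h1]
  apply Finset.card_le_card
  intro m hm
  rw [mem_image] at hm
  obtain ⟨d, hd, rfl⟩ := hm
  rw [mem_Ioo] at hd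
  rw [mem_filter, mem_Ioo]
  refine ⟨⟨by omega, by omega⟩, d, hd.1, hd.2, ?_⟩
  exact (Nat.dvd_add_right (Nat.dvd_factorial (by omega) (by omega))).2 dvd_rfl

/-- **Erdős's window length is linear in `n`.**  For `0 < ε < 1` there are `C` and `N` such that
for every `n ≥ N` the window length `y(ε,n)` is a finite number `Y` with
`(n - 1)/ε ≤ Y ≤ C n`; for `ε ≥ 1` it is `0`. -/
theorem linear :
    (∀ ε : ℝ, 0 < ε → ε < 1 →
      ∃ C N : ℕ, ∀ n : ℕ, N ≤ n →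
        ∃ Y : ℕ, windowLength ε n = (Y : ℕ∞) ∧ ((n : ℝ) - 1) / ε ≤ (Y : ℝ) ∧ (Y : ℝ) ≤ C * n) ∧
    (∀ ε : ℝ, 1 ≤ ε → ∀ n : ℕ, windowLength ε n = 0) := by
  classical
  constructor
  · intro ε hε hε1
    obtain ⟨C, N, hCN⟩ := exists_linear_bound ε hε
    obtain ⟨N', hN'⟩ := exists_nat_gt (1 / (1 - ε))
    refine ⟨C, max N N', fun n hn => ?_⟩
    have hnN : N ≤ n := (le_max_left _ _).trans hn
    have hnN' : 1 / (1 - ε) < n := lt_of_lt_of_le hN' (by exact_mod_cast (le_max_right _ _).trans hn)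
    have hn1 : 1 < n * (1 - ε) := by
      rwa [div_lt_iff₀ (by linarith)] at hnN'
    set S : Set ℕ∞ := {z : ℕ∞ | ∃ y₀ : ℕ, z = (y₀ : ℕ∞) ∧
      ∀ x y : ℕ, y₀ ≤ y → (windowCount n x y : ℝ) ≤ ε * (y : ℝ)} with hS
    have hmem : ((C * n : ℕ) : ℕ∞) ∈ S := ⟨C * n, rfl, fun x y hy => hCN n hnN x y hy⟩
    have hne : S.Nonempty := ⟨_, hmem⟩
    obtain ⟨Y, hY, hYprop⟩ : sInf S ∈ S := csInf_mem hne
    refine ⟨Y, hY, ?_, ?_⟩
    · rw [div_le_iff₀ hε]
      have hn0 : 1 ≤ n := by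
        rcases Nat.eq_zero_or_pos n with h | h
        · subst h
          norm_num at hn1
        · exact h
      by_cases hYn : n ≤ Y
      · have h1 := hYprop ((2 * n).factorial + n) Y le_rfl
        have h2 := le_windowCount n Y hYn
        have h3 : ((n - 1 : ℕ) : ℝ) ≤ (windowCount n ((2 * n).factorial + n) Y : ℝ) := by
          exact_mod_cast h2
        rw [Nat.cast_sub hn0] at h3
        push_cast at h3
        linarith
      · exfalso
        push Not at hYn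
        have h1 := hYprop ((2 * n).factorial + n) n hYn.le
        have h2 := le_windowCount n n le_rfl
        have h3 : ((n - 1 : ℕ) : ℝ) ≤ (windowCount n ((2 * n).factorial + n) n : ℝ) := by
          exact_mod_cast h2
        rw [Nat.cast_sub hn0] at h3
        push_cast at h3
        linarith
    · have h1 : sInf S ≤ ((C * n : ℕ) : ℕ∞) := sInf_le hmem
      rw [hY] at h1
      have h2 : Y ≤ C * n := by exact_mod_cast h1
      exact_mod_cast h2
  · intro ε hε n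
    have hmem : ((0 : ℕ) : ℕ∞) ∈ {z : ℕ∞ | ∃ y₀ : ℕ, z = (y₀ : ℕ∞) ∧
        ∀ x y : ℕ, y₀ ≤ y → (windowCount n x y : ℝ) ≤ ε * (y : ℝ)} := by
      refine ⟨0, rfl, fun x y _ => ?_⟩
      have h1 : windowCount n x y ≤ y := by
        rw [windowCount_eq]
        refine (Finset.card_filter_le _ _).trans ?_
        rw [Nat.card_Ioo]
        omega
      have h2 : (windowCount n x y : ℝ) ≤ y := by exact_mod_cast h1
      have h3 : (0 : ℝ) ≤ y := by positivity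
      nlinarith
    have h1 : windowLength ε n ≤ ((0 : ℕ) : ℕ∞) := sInf_le hmem
    simpa using h1

end Pool.MWL.Lin
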