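import Pool.Agent.MWL.Defs

/-!
# MWL: weights of families of sets of primes with prescribed numbers per block
-/

namespace Pool.MWL

open Finset Real

theorem wt_nonneg (A : Finset ℕ) : 0 ≤ wt A :=
  prod_nonneg fun _ _ => by positivity

theorem mem_PB {w : ℕ → ℕ} {r p : ℕ} : p ∈ PB w r ↔ (w r < p ∧ p ≤ w (r + 1)) ∧ p.Prime := by
  simp [PB]

theorem mem_PA {w : ℕ → ℕ} {R p : ℕ} : p ∈ PA w R ↔ (w 0 < p ∧ p ≤ w R) ∧ p.Prime := by
  simp [PA]

theorem PB_sub_PA {w : ℕ → ℕ} (hw : Monotone w) {R r : ℕ} (hr : r < R) : PB w r ⊆ PA w R := by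
  intro p hp
  rw [mem_PB] at hp
  rw [mem_PA]
  exact ⟨⟨(hw (Nat.zero_le r)).trans_lt hp.1.1, hp.1.2.trans (hw hr)⟩, hp.2⟩

theorem PB_disj {w : ℕ → ℕ} (hw : Monotone w) {r r' p : ℕ} (h : p ∈ PB w r) (h' : p ∈ PB w r') :
    r = r' := by
  rw [mem_PB] at h h'
  by_contra hne
  rcases Nat.lt_or_ge r r' with hlt | hge
  · have : w (r + 1) ≤ w r' := hw hlt
    omega
  · have hlt : r' < r := lt_of_le_of_ne hge (Ne.symm hne)
    have : w (r' + 1) ≤ w r := hw hlt
    omega

theorem mem_Fam {w : ℕ → ℕ} {R : ℕ} {c : ℕ → ℕ} {A : Finset ℕ} :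
    A ∈ Fam w R c ↔ A ⊆ PA w R ∧ ∀ r < R, (A ∩ PB w r).card = c r := by
  simp [Fam]

/-- adding a prime of block `r` -/
theorem Fam_insert {w : ℕ → ℕ} (hw : Monotone w) {R : ℕ} {c : ℕ → ℕ} {r j : ℕ} (hr : r < R)
    {A : Finset ℕ} {p : ℕ} (hA : A ∈ Fam w R (Function.update c r j)) (hp : p ∈ PB w r)
    (hpA : p ∉ A) : insert p A ∈ Fam w R (Function.update c r (j + 1)) := by
  rw [mem_Fam] at hA ⊢
  refine ⟨insert_subset (PB_sub_PA hw hr hp) hA.1, fun r' hr' => ?_⟩
  by_cases hrr : r' = r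
  · subst hrr
    have h1 := hA.2 r' hr'
    rw [Function.update_self] at h1
    rw [Function.update_self, insert_inter_of_mem hp, card_insert_of_notMem, h1]
    simp [hpA]
  · have h1 := hA.2 r' hr'
    rw [Function.update_of_ne hrr] at h1
    rw [Function.update_of_ne hrr, insert_inter_of_notMem, h1]
    intro h
    exact hrr (PB_disj hw h hp)

/-- removing a prime of block `r` -/
theorem Fam_erase {w : ℕ → ℕ} (hw : Monotone w) {R : ℕ} {c : ℕ → ℕ} {r j : ℕ}
    {A : Finset ℕ} {p : ℕ} (hA : A ∈ Fam w R (Function.update c r (j + 1))) (hp : p ∈ PB w r)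
    (hpA : p ∈ A) : A.erase p ∈ Fam w R (Function.update c r j) := by
  rw [mem_Fam] at hA ⊢
  refine ⟨(erase_subset _ _).trans hA.1, fun r' hr' => ?_⟩
  by_cases hrr : r' = r
  · subst hrr
    have h1 := hA.2 r' hr'
    rw [Function.update_self] at h1
    rw [Function.update_self, erase_inter, card_erase_of_mem (mem_inter.2 ⟨hpA, hp⟩), h1]
    rfl
  · have h1 := hA.2 r' hr'
    rw [Function.update_of_ne hrr] at h1
    rw [Function.update_of_ne hrr, erase_inter, erase_eq_of_notMem, h1]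
    intro h
    exact hrr (PB_disj hw (mem_inter.1 h).2 hp)

/-- double counting -/
theorem Wt_double (w : ℕ → ℕ) (hw : Monotone w) (R : ℕ) (c : ℕ → ℕ) (r j : ℕ) (hr : r < R) :
    ∑ A ∈ Fam w R (Function.update c r j), ∑ p ∈ PB w r \ A, wt A * ((1 : ℝ) / p)
      = (j + 1) * Wt w R (Function.update c r (j + 1)) := by
  have h1 : (j + 1 : ℝ) * Wt w R (Function.update c r (j + 1))
      = ∑ A ∈ Fam w R (Function.update c r (j + 1)), ∑ p ∈ A ∩ PB w r, wt A := by
    rw [Wt, mul_sum]
    refine sum_congr rfl fun A hA => ?_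
    rw [mem_Fam] at hA
    have := hA.2 r hr
    rw [Function.update_self] at this
    rw [sum_const, this, nsmul_eq_mul]
    push_cast
    ring
  rw [h1, sum_sigma', sum_sigma']
  refine sum_bij' (i := fun x _ => ⟨insert x.2 x.1, x.2⟩) (j := fun x _ => ⟨x.1.erase x.2, x.2⟩)
    ?_ ?_ ?_ ?_ ?_
  · rintro ⟨A, p⟩ hx
    simp only [mem_sigma, mem_sdiff] at hx ⊢
    exact ⟨Fam_insert hw hr hx.1 hx.2.1 hx.2.2, by simp [hx.2.1]⟩
  · rintro ⟨A, p⟩ hx
    simp only [mem_sigma, mem_sdiff, mem_inter] at hx ⊢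
    exact ⟨Fam_erase hw hx.1 hx.2.2 hx.2.1, hx.2.2, by simp⟩
  · rintro ⟨A, p⟩ hx
    simp only [mem_sigma, mem_sdiff] at hx
    simp [erase_insert hx.2.2]
  · rintro ⟨A, p⟩ hx
    simp only [mem_sigma, mem_inter] at hx
    simp [insert_erase hx.2.1]
  · rintro ⟨A, p⟩ hx
    simp only [mem_sigma, mem_sdiff] at hx
    simp only [wt]
    rw [prod_insert hx.2.2, mul_comm]

theorem Wt_step (w : ℕ → ℕ) (hw : Monotone w) (R : ℕ) (c : ℕ → ℕ) (r j : ℕ) (hr : r < R)
    (hw0 : 1 ≤ w 0) :
    (∑ p ∈ PB w r, (1 : ℝ) / p - (j : ℝ) / w 0) * Wt w R (Function.update c r j)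
      ≤ (j + 1) * Wt w R (Function.update c r (j + 1)) := by
  rw [← Wt_double w hw R c r j hr, Wt, mul_sum]
  refine sum_le_sum fun A hA => ?_
  rw [← mul_sum, mul_comm]
  refine mul_le_mul_of_nonneg_left ?_ (wt_nonneg A)
  rw [mem_Fam] at hA
  have hcard := hA.2 r hr
  rw [Function.update_self] at hcard
  have h1 : ∑ p ∈ PB w r, (1 : ℝ) / p
      = ∑ p ∈ PB w r \ A, (1 : ℝ) / p + ∑ p ∈ PB w r ∩ A, (1 : ℝ) / p := by
    rw [add_comm, ← sum_union (disjoint_left.2 fun x hx hx' =>
      (mem_sdiff.1 hx').2 (mem_inter.1 hx).2)]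
    congr 1
    ext x
    simp only [mem_union, mem_inter, mem_sdiff]
    tauto
  have h2 : ∑ p ∈ PB w r ∩ A, (1 : ℝ) / p ≤ (j : ℝ) / w 0 := by
    calc ∑ p ∈ PB w r ∩ A, (1 : ℝ) / p ≤ ∑ _p ∈ PB w r ∩ A, (1 : ℝ) / w 0 := by
          refine sum_le_sum fun p hp => ?_
          have hp' := mem_PB.1 (mem_inter.1 hp).1
          have h3 : w 0 ≤ p := ((hw (Nat.zero_le r)).trans_lt hp'.1.1).le
          have h4 : (0 : ℝ) < w 0 := by exact_mod_cast hw0
          exact one_div_le_one_div_of_le h4 (by exact_mod_cast h3)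
      _ = (j : ℝ) / w 0 := by
          rw [sum_const, nsmul_eq_mul, inter_comm, hcard]
          ring
  linarith

theorem Wt_nonneg (w : ℕ → ℕ) (R : ℕ) (c : ℕ → ℕ) : 0 ≤ Wt w R c :=
  sum_nonneg fun A _ => wt_nonneg A

theorem Wt_congr (w : ℕ → ℕ) (R : ℕ) (c c' : ℕ → ℕ) (h : ∀ r < R, c r = c' r) :
    Wt w R c = Wt w R c' := by
  have : Fam w R c = Fam w R c' := by
    ext A
    rw [mem_Fam, mem_Fam]
    constructor
    · rintro ⟨h1, h2⟩
      exact ⟨h1, fun r hr => (h2 r hr).trans (h r hr)⟩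
    · rintro ⟨h1, h2⟩
      exact ⟨h1, fun r hr => (h2 r hr).trans (h r hr).symm⟩
  rw [Wt, Wt, this]

theorem Wt_ge (w : ℕ → ℕ) (hw : Monotone w) (R m : ℕ) (s : ℝ) (hs : 0 < s) (hw0 : 1 ≤ w 0)
    (hS : ∀ r < R, s ≤ ∑ p ∈ PB w r, (1 : ℝ) / p - (m : ℝ) / w 0) :
    (s ^ m / m.factorial) ^ R ≤ Wt w R (fun _ => m) := by
  -- one block
  have hblock : ∀ (c : ℕ → ℕ) (r : ℕ), r < R → ∀ j ≤ m,
      s ^ j / j.factorial * Wt w R (Function.update c r 0) ≤ Wt w R (Function.update c r j) := by
    intro c r hr j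
    induction j with
    | zero => intro _; simp
    | succ j ih =>
      intro hj
      have h1 := ih (by omega)
      have h2 := Wt_step w hw R c r j hr hw0
      have h3 : s ≤ ∑ p ∈ PB w r, (1 : ℝ) / p - (j : ℝ) / w 0 := by
        refine (hS r hr).trans ?_
        have h4 : (0 : ℝ) < w 0 := by exact_mod_cast hw0
        have h5 : (j : ℝ) / w 0 ≤ (m : ℝ) / w 0 := by
          gcongr
          omega
        linarith
      have h6 : s * Wt w R (Function.update c r j)
          ≤ (j + 1) * Wt w R (Function.update c r (j + 1)) :=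
        (mul_le_mul_of_nonneg_right h3 (Wt_nonneg _ _ _)).trans h2
      have h7 : s * (s ^ j / j.factorial * Wt w R (Function.update c r 0))
          ≤ (j + 1) * Wt w R (Function.update c r (j + 1)) :=
        (mul_le_mul_of_nonneg_left h1 hs.le).trans h6
      have hf : (0 : ℝ) < j.factorial := by exact_mod_cast Nat.factorial_pos j
      have hj1 : (0 : ℝ) < (j : ℝ) + 1 := by positivity
      rw [Nat.factorial_succ]
      push_cast
      have h8 : s ^ (j + 1) / (((j : ℝ) + 1) * j.factorial) * Wt w R (Function.update c r 0)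
          = s * (s ^ j / j.factorial * Wt w R (Function.update c r 0)) / (j + 1) := by
        field_simp
        try ring
      rw [h8, div_le_iff₀ hj1]
      linarith
  -- all blocks
  have hall : ∀ k ≤ R, (s ^ m / m.factorial) ^ k
      ≤ Wt w R (fun r => if r < k then m else 0) := by
    intro k
    induction k with
    | zero =>
      intro _
      have hmem : (∅ : Finset ℕ) ∈ Fam w R (fun r => if r < 0 then m else 0) := by
        rw [mem_Fam]
        exact ⟨empty_subset _, fun r _ => by simp⟩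
      have h1 := single_le_sum (f := wt) (fun A _ => wt_nonneg A) hmem
      simpa [wt, Wt] using h1
    | succ k ih =>
      intro hk
      have h1 := ih (by omega)
      have h2 := hblock (fun r => if r < k then m else 0) k (by omega) m le_rfl
      have h3 : Function.update (fun r => if r < k then m else 0) k 0
          = fun r => if r < k then m else 0 := by
        ext r
        by_cases hr : r = k
        · subst hr; simp
        · simp [Function.update_of_ne hr]
      have h4 : Function.update (fun r => if r < k then m else 0) k m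
          = fun r => if r < k + 1 then m else 0 := by
        ext r
        by_cases hr : r = k
        · subst hr; simp
        · rw [Function.update_of_ne hr]
          have : r < k + 1 ↔ r < k := by omega
          simp [this]
      rw [h3, h4] at h2
      rw [pow_succ']
      exact (mul_le_mul_of_nonneg_left h1 (by positivity)).trans h2
  have h1 := hall R le_rfl
  rwa [Wt_congr w R (fun r => if r < R then m else 0) (fun _ => m)
    (fun r hr => by simp [hr])] at h1

end Pool.MWL
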