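import Pool.Agent.MedDiv.Brun
import Pool.Agent.MWL.Cnt

/-!
# MWL/UppA: lemmas for the upper bound (squares, additivity of `om`, division)
-/

set_option autoImplicit false

namespace Pool.MWL

open Finset Pool.MedDiv

/-- few integers of a window are divisible by `p ^ 2` with `p ∈ Q`, if all `p ∈ Q` exceed `z0` -/
theorem sq_count (Q : Finset ℕ) (z0 z : ℕ) (hz0 : 1 ≤ z0) (hQ : Q ⊆ Ioc z0 z) (x X : ℕ) :
    (((Ioc x (x + X)).filter (fun m => ∃ p ∈ Q, p ^ 2 ∣ m)).card : ℝ) ≤ X / z0 + z := by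
  classical
  have h1 : (Ioc x (x + X)).filter (fun m => ∃ p ∈ Q, p ^ 2 ∣ m)
      ⊆ Q.biUnion (fun p => (Ioc x (x + X)).filter (fun m => p ^ 2 ∣ m)) := by
    intro m hm
    simp only [mem_filter, mem_biUnion] at hm ⊢
    obtain ⟨h, p, hp, hd⟩ := hm
    exact ⟨p, hp, h, hd⟩
  have h2 : (((Ioc x (x + X)).filter (fun m => ∃ p ∈ Q, p ^ 2 ∣ m)).card : ℝ)
      ≤ ∑ p ∈ Q, (((Ioc x (x + X)).filter (fun m => p ^ 2 ∣ m)).card : ℝ) := by
    have := (card_le_card h1).trans card_biUnion_le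
    exact_mod_cast this
  have h3 : ∀ p ∈ Q, (((Ioc x (x + X)).filter (fun m => p ^ 2 ∣ m)).card : ℝ)
      ≤ X * ((p : ℝ) ^ 2)⁻¹ + 1 := by
    intro p hp
    have hp1 := mem_Ioc.1 (hQ hp)
    have h := card_mult x (x + X) (p ^ 2) (by omega) (Nat.one_le_pow _ _ (by omega))
    have h' := (abs_le.1 h).2
    push_cast at h'
    have e : ((x : ℝ) + X - x) / (p : ℝ) ^ 2 = X * ((p : ℝ) ^ 2)⁻¹ := by
      rw [div_eq_mul_inv]; ring
    rw [e] at h'
    linarith
  have h4 : ∑ p ∈ Q, ((p : ℝ) ^ 2)⁻¹ ≤ 1 / z0 := by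
    rcases Nat.lt_or_ge z z0 with h | h
    · have : Q = ∅ := by
        rw [← subset_empty]
        refine hQ.trans ?_
        rw [Ioc_eq_empty (by omega)]
      rw [this]; simp
    · calc ∑ p ∈ Q, ((p : ℝ) ^ 2)⁻¹ ≤ ∑ p ∈ Ioc z0 z, ((p : ℝ) ^ 2)⁻¹ :=
            sum_le_sum_of_subset_of_nonneg hQ fun _ _ _ => by positivity
        _ ≤ (z0 : ℝ)⁻¹ - (z : ℝ)⁻¹ := sum_Ioc_inv_sq_le_sub (by omega) h
        _ ≤ 1 / z0 := by
            have : (0 : ℝ) ≤ (z : ℝ)⁻¹ := by positivity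
            rw [one_div]; linarith
  have h5 : (Q.card : ℝ) ≤ z := by
    have := card_le_card hQ
    rw [Nat.card_Ioc] at this
    have h' : Q.card ≤ z := by omega
    exact_mod_cast h'
  calc _ ≤ ∑ p ∈ Q, (X * ((p : ℝ) ^ 2)⁻¹ + 1) := h2.trans (sum_le_sum h3)
    _ = X * ∑ p ∈ Q, ((p : ℝ) ^ 2)⁻¹ + Q.card := by
        rw [sum_add_distrib, ← mul_sum]; simp
    _ ≤ X * (1 / z0) + z := by
        have := mul_le_mul_of_nonneg_left h4 (Nat.cast_nonneg (α := ℝ) X)
        linarith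
    _ = X / z0 + z := by ring

/-- `om` is additive on `d * q` if no `p ^ 2`, `p ∈ Q`, divides `d * q` -/
theorem om_mul (Q : Finset ℕ) (hQ : ∀ p ∈ Q, p.Prime) (d q : ℕ)
    (h : ¬ ∃ p ∈ Q, p ^ 2 ∣ d * q) : om Q (d * q) = om Q d + om Q q := by
  classical
  unfold om
  rw [← card_union_of_disjoint]
  · congr 1
    ext p
    simp only [mem_filter, mem_union]
    constructor
    · rintro ⟨h1, h2⟩
      rcases (hQ p h1).dvd_mul.1 h2 with h3 | h3
      · exact Or.inl ⟨h1, h3⟩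
      · exact Or.inr ⟨h1, h3⟩
    · rintro (⟨h1, h2⟩ | ⟨h1, h2⟩)
      · exact ⟨h1, h2.mul_right _⟩
      · exact ⟨h1, h2.mul_left _⟩
  · rw [disjoint_left]
    intro p hp hp'
    simp only [mem_filter] at hp hp'
    refine h ⟨p, hp.1, ?_⟩
    rw [pow_two]
    exact mul_dvd_mul hp.2 hp'.2

/-- change of variable `m = d q` in a window -/
theorem div_sum (d : ℕ) (hd : 1 ≤ d) (g : ℕ → ℝ) (hg : ∀ q, 0 ≤ g q) (a X : ℕ) :
    ∑ m ∈ (Ico a (a + X)).filter (fun m => d ∣ m), g (m / d)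
      ≤ ∑ q ∈ Ico ((a + d - 1) / d) ((a + d - 1) / d + (X / d + 1)), g q := by
  classical
  rw [← sum_image (f := g) (g := fun m => m / d)
    (s := (Ico a (a + X)).filter (fun m => d ∣ m))]
  · refine sum_le_sum_of_subset_of_nonneg ?_ fun q _ _ => hg q
    intro q hq
    simp only [mem_image, mem_filter, mem_Ico] at hq ⊢
    obtain ⟨m, ⟨⟨h1, h2⟩, k, rfl⟩, rfl⟩ := hq
    rw [Nat.mul_div_cancel_left _ (by omega)]
    constructor
    · apply Nat.le_of_lt_succ
      rw [Nat.div_lt_iff_lt_mul (by omega)]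
      have : (k + 1) * d = d * k + d := by ring
      rw [Nat.succ_eq_add_one, this]; omega
    · have e1 := Nat.div_add_mod (a + d - 1) d
      have e2 := Nat.mod_lt (a + d - 1) (show 0 < d by omega)
      have e3 := Nat.div_add_mod X d
      have e4 := Nat.mod_lt X (show 0 < d by omega)
      by_contra hcon
      push Not at hcon
      have := Nat.mul_le_mul_left d hcon
      have e5 : d * ((a + d - 1) / d + (X / d + 1))
          = d * ((a + d - 1) / d) + (d * (X / d) + d) := by ring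
      rw [e5] at this
      omega
  · intro m1 h1 m2 h2 h
    simp only [coe_filter, Set.mem_setOf_eq] at h1 h2
    obtain ⟨k1, rfl⟩ := h1.2
    obtain ⟨k2, rfl⟩ := h2.2
    simp only [Nat.mul_div_cancel_left _ (show 0 < d by omega)] at h
    rw [h]

end Pool.MWL
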