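import Mathlib

/-!
# MWL/Win: definitions of the problem (window counts and window length) and the exponent `δ`
-/

namespace Pool.MWL

open Finset

/-- `m` has a medium divisor (relative to `n`): a divisor `d` with `n < d < 2 n`. -/
def HasMediumDivisor (n m : ℕ) : Prop := ∃ d : ℕ, n < d ∧ d < 2 * n ∧ d ∣ m

/-- `N_n(x,y)`: the number of integers `m` with `x < m < x + y` having a medium divisor. -/
noncomputable def windowCount (n x y : ℕ) : ℕ :=
  Set.ncard {m : ℕ | x < m ∧ m < x + y ∧ HasMediumDivisor n m}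

/-- `y(ε,n)`: the least `y₀` such that `N_n(x,y) ≤ ε y` for all `x ≥ 0` and all `y ≥ y₀`
(and `⊤` if there is no such `y₀`). -/
noncomputable def windowLength (ε : ℝ) (n : ℕ) : ℕ∞ :=
  sInf {z : ℕ∞ | ∃ y₀ : ℕ, z = (y₀ : ℕ∞) ∧
    ∀ x y : ℕ, y₀ ≤ y → (windowCount n x y : ℝ) ≤ ε * (y : ℝ)}

/-- the exponent `δ = 1 - (1 + log log 2)/log 2 = 0.0860...` -/
noncomputable def delta : ℝ := 1 - (1 + Real.log (Real.log 2)) / Real.log 2

open Classical in
lemma windowCount_eq (n x y : ℕ) (hy : 1 ≤ y) :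
    windowCount n x y = ((Ioc x (x + y - 1)).filter (fun m => HasMediumDivisor n m)).card := by
  unfold windowCount
  rw [← Set.ncard_coe_finset]
  congr 1
  ext m
  simp only [Set.mem_setOf_eq, coe_filter, mem_Ioc]
  constructor
  · rintro ⟨h1, h2, h3⟩; exact ⟨by omega, h3⟩
  · rintro ⟨h1, h3⟩; exact ⟨by omega, by omega, h3⟩

end Pool.MWL
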