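import Pool.Agent.MWL.UppA
import Pool.Agent.MWL.Win

/-!
# MWL/UppB: the key inequality of the upper bound
-/

set_option autoImplicit false

namespace Pool.MWL

open Finset Pool.MedDiv

/-- the inner and outer sums: pairs `(d, q)` with `n < d < 2 n` and `d q` in a window -/
theorem pair_sum (Q : Finset ℕ) (z J n : ℕ) (hz : 1 ≤ z) (hn : 1 ≤ n)
    (hQ : ∀ p ∈ Q, p.Prime ∧ p ≤ z) (hJe : Even J) (hJ : 4 * rs Q ≤ J)
    (hn2 : (z : ℝ) ^ J * Real.exp (2 * rs Q) ≤ n) (x y : ℕ)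
    (hy : (z : ℝ) ^ J * Real.exp (2 * rs Q) * n ≤ y) (w : ℝ) (hw0 : 0 ≤ w) (hw1 : w ≤ 1)
    (B : Finset ℕ) (hB : ∀ m ∈ B, m ∈ Ico (x + 1) (x + 1 + (y - 1)) ∧ HasMediumDivisor n m ∧
      ¬ ∃ p ∈ Q, p ^ 2 ∣ m) :
    ∑ m ∈ B, (1 - w) ^ (om Q m) ≤ 15 * y * Real.exp (-(2 * w * rs Q)) := by
  classical
  set S := rs Q with hS
  have hS0 : 0 ≤ S := by
    rw [hS]; unfold rs; exact sum_nonneg fun _ _ => by positivity
  have hv0 : 0 ≤ 1 - w := by linarith
  have he3 : Real.exp 1 ≤ 3 := by have := Real.exp_one_lt_d9; linarith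
  have hE : Real.exp (Real.exp 1 * S - J) ≤ Real.exp (-(w * S)) := by
    apply Real.exp_le_exp.2
    nlinarith [mul_le_mul_of_nonneg_right he3 hS0, mul_le_mul_of_nonneg_right hw1 hS0]
  have hzJ : (1 : ℝ) ≤ (z : ℝ) ^ J := one_le_pow₀ (by exact_mod_cast hz)
  have hn0 : (0 : ℝ) < n := by exact_mod_cast hn
  have hexpS : Real.exp S = Real.exp (2 * S) * Real.exp (-S) := by
    rw [← Real.exp_add]; congr 1; ring
  have hSw : Real.exp (-S) ≤ Real.exp (-(w * S)) := by
    apply Real.exp_le_exp.2; nlinarith [mul_le_mul_of_nonneg_right hw1 hS0]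
  have hyn : (z : ℝ) ^ J * Real.exp (2 * S) ≤ y / n := by
    rw [le_div_iff₀ hn0]; exact hy
  have hyn1 : (1 : ℝ) ≤ y / n := by
    refine le_trans ?_ hyn
    have : (1 : ℝ) ≤ Real.exp (2 * S) := Real.one_le_exp (by linarith)
    nlinarith
  -- inner
  have hin : ∀ d ∈ Ioo n (2 * n), ∑ m ∈ (Ico (x + 1) (x + 1 + (y - 1))).filter (fun m => d ∣ m),
      (1 - w) ^ (om Q (m / d)) ≤ 5 * (y / n) * Real.exp (-(w * S)) := by
    intro d hd
    rw [mem_Ioo] at hd
    have h1 := div_sum d (by omega) (fun q => (1 - w) ^ (om Q q)) (fun q => pow_nonneg hv0 _)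
      (x + 1) (y - 1)
    refine h1.trans ?_
    have h2 := sum_pow_le hQ hz hw0 hw1 hJe ((x + 1 + d - 1) / d) ((y - 1) / d + 1)
    refine h2.trans ?_
    have h3 : (((y - 1) / d + 1 : ℕ) : ℝ) ≤ 2 * (y / n) := by
      push_cast
      have h4 : (((y - 1) / d : ℕ) : ℝ) ≤ ((y - 1 : ℕ) : ℝ) / d := Nat.cast_div_le
      have h5 : ((y - 1 : ℕ) : ℝ) / d ≤ y / n := by
        have hdn : (n : ℝ) ≤ d := by exact_mod_cast hd.1.le
        have hyy : ((y - 1 : ℕ) : ℝ) ≤ y := by exact_mod_cast Nat.sub_le y 1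
        exact div_le_div₀ (Nat.cast_nonneg _) hyy hn0 hdn
      linarith
    have h6 : (z : ℝ) ^ J * Real.exp S ≤ (y / n) * Real.exp (-(w * S)) := by
      rw [hexpS, ← mul_assoc]
      exact mul_le_mul hyn hSw (Real.exp_pos _).le (by positivity)
    have h7 : (((y - 1) / d + 1 : ℕ) : ℝ) * (Real.exp (-(w * S)) + Real.exp (Real.exp 1 * S - J))
        ≤ 2 * (y / n) * (2 * Real.exp (-(w * S))) := by
      refine mul_le_mul h3 (by linarith) (by positivity) (by positivity)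
    linarith
  -- outer
  have hout : ∑ d ∈ Ioo n (2 * n), (1 - w) ^ (om Q d) ≤ 3 * n * Real.exp (-(w * S)) := by
    have h1 : ∑ d ∈ Ioo n (2 * n), (1 - w) ^ (om Q d) ≤ ∑ d ∈ Ico n (n + n), (1 - w) ^ (om Q d) := by
      refine sum_le_sum_of_subset_of_nonneg ?_ fun _ _ _ => pow_nonneg hv0 _
      intro d hd
      rw [mem_Ioo] at hd
      rw [mem_Ico]; omega
    refine h1.trans ((sum_pow_le hQ hz hw0 hw1 hJe n n).trans ?_)
    have h6 : (z : ℝ) ^ J * Real.exp S ≤ n * Real.exp (-(w * S)) := by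
      rw [hexpS, ← mul_assoc]
      exact mul_le_mul hn2 hSw (Real.exp_pos _).le (by positivity)
    have h7 : (n : ℝ) * (Real.exp (-(w * S)) + Real.exp (Real.exp 1 * S - J))
        ≤ n * (2 * Real.exp (-(w * S))) :=
      mul_le_mul_of_nonneg_left (by linarith) hn0.le
    linarith
  -- main
  have h1 : ∀ m ∈ B, (1 - w) ^ (om Q m) ≤ ∑ d ∈ Ioo n (2 * n),
      if d ∣ m then (1 - w) ^ (om Q d) * (1 - w) ^ (om Q (m / d)) else 0 := by
    intro m hm
    obtain ⟨-, ⟨d, hd1, hd2, hd3⟩, hsq⟩ := hB m hm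
    have h2 : (if d ∣ m then (1 - w) ^ (om Q d) * (1 - w) ^ (om Q (m / d)) else 0)
        = (1 - w) ^ (om Q m) := by
      rw [if_pos hd3]
      have e : d * (m / d) = m := Nat.mul_div_cancel' hd3
      have h3 := om_mul Q (fun p hp => (hQ p hp).1) d (m / d) (by rw [e]; exact hsq)
      rw [e] at h3
      rw [h3, pow_add]
    rw [← h2]
    exact single_le_sum (f := fun d => if d ∣ m then (1 - w) ^ (om Q d) * (1 - w) ^ (om Q (m / d)) else 0)
      (fun d _ => by
        split_ifs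
        · exact mul_nonneg (pow_nonneg hv0 _) (pow_nonneg hv0 _)
        · exact le_rfl) (mem_Ioo.2 ⟨hd1, hd2⟩)
  have h2 : ∀ d ∈ Ioo n (2 * n), (∑ m ∈ B,
      if d ∣ m then (1 - w) ^ (om Q d) * (1 - w) ^ (om Q (m / d)) else 0)
      ≤ (1 - w) ^ (om Q d) * (5 * (y / n) * Real.exp (-(w * S))) := by
    intro d hd
    rw [← sum_filter, ← mul_sum]
    refine mul_le_mul_of_nonneg_left ?_ (pow_nonneg hv0 _)
    refine le_trans ?_ (hin d hd)
    refine sum_le_sum_of_subset_of_nonneg ?_ fun _ _ _ => pow_nonneg hv0 _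
    intro m hm
    rw [mem_filter] at hm ⊢
    exact ⟨(hB m hm.1).1, hm.2⟩
  calc ∑ m ∈ B, (1 - w) ^ (om Q m)
      ≤ ∑ m ∈ B, ∑ d ∈ Ioo n (2 * n),
        (if d ∣ m then (1 - w) ^ (om Q d) * (1 - w) ^ (om Q (m / d)) else 0) := sum_le_sum h1
    _ = ∑ d ∈ Ioo n (2 * n), ∑ m ∈ B,
        (if d ∣ m then (1 - w) ^ (om Q d) * (1 - w) ^ (om Q (m / d)) else 0) := sum_comm
    _ ≤ ∑ d ∈ Ioo n (2 * n), (1 - w) ^ (om Q d) * (5 * (y / n) * Real.exp (-(w * S))) :=
        sum_le_sum h2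
    _ = (∑ d ∈ Ioo n (2 * n), (1 - w) ^ (om Q d)) * (5 * (y / n) * Real.exp (-(w * S))) := by
        rw [sum_mul]
    _ ≤ (3 * n * Real.exp (-(w * S))) * (5 * (y / n) * Real.exp (-(w * S))) :=
        mul_le_mul_of_nonneg_right hout (by positivity)
    _ = 15 * y * Real.exp (-(2 * w * S)) := by
        have e : Real.exp (-(2 * w * S)) = Real.exp (-(w * S)) * Real.exp (-(w * S)) := by
          rw [← Real.exp_add]; congr 1; ring
        rw [e]; field_simp; ring

theorem log2_facts' : (1 / 2 : ℝ) < Real.log 2 ∧ Real.log 2 < 1 ∧ 0 < delta ∧ delta ≤ 1 := by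
  have h1 := Real.log_two_gt_d9
  have h2 := Real.log_two_lt_d9
  have h3 : 0 < Real.log 2 := by linarith
  refine ⟨by linarith, by linarith, ?_, ?_⟩
  · unfold delta
    rw [sub_pos, div_lt_one h3]
    -- log log 2 < log 2 - 1
    have h4 : Real.log (Real.log 2) < Real.log 2 - 1 :=
      Real.log_lt_sub_one_of_pos h3 (by linarith)
    linarith
  · unfold delta
    have h4 : -1 ≤ Real.log (Real.log 2) := by
      rw [Real.le_log_iff_exp_le h3, Real.exp_neg, inv_le_comm₀ (Real.exp_pos _) h3]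
      have h5 : (Real.log 2)⁻¹ ≤ 2 := by
        rw [inv_le_comm₀ h3 (by norm_num)]; linarith
      have := Real.exp_one_gt_d9
      linarith
    have : 0 ≤ (1 + Real.log (Real.log 2)) / Real.log 2 := div_nonneg (by linarith) h3.le
    linarith

theorem key_ineq (Q : Finset ℕ) (z0 z J n : ℕ) (hz0 : 1 ≤ z0) (hz : 1 ≤ z) (hn : 2 ≤ n)
    (hQ : ∀ p ∈ Q, p.Prime ∧ z0 < p ∧ p ≤ z) (hJe : Even J) (hJ : 4 * rs Q ≤ J)
    (hn2 : (z : ℝ) ^ J * Real.exp (2 * rs Q) ≤ n) (x y : ℕ)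
    (hy : (z : ℝ) ^ J * Real.exp (2 * rs Q) * n ≤ y) :
    (windowCount n x y : ℝ) ≤ y * (19 * Real.exp (-(delta * rs Q)) + 1 / z0) + z := by
  classical
  set S := rs Q with hS
  have hS0 : 0 ≤ S := by
    rw [hS]; unfold rs; exact sum_nonneg fun _ _ => by positivity
  obtain ⟨hL1, hL2, hd0, hd1⟩ := log2_facts'
  set L := Real.log 2 with hL
  have hL0 : 0 < L := by linarith
  have hQ' : ∀ p ∈ Q, p.Prime ∧ p ≤ z := fun p hp => ⟨(hQ p hp).1, (hQ p hp).2.2⟩
  have he3 : Real.exp 1 ≤ 3 := by have := Real.exp_one_lt_d9; linarith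
  have hE : Real.exp (Real.exp 1 * S - J) ≤ Real.exp (-(delta * S)) := by
    apply Real.exp_le_exp.2
    nlinarith [mul_le_mul_of_nonneg_right he3 hS0, mul_le_mul_of_nonneg_right hd1 hS0]
  have hzJ : (1 : ℝ) ≤ (z : ℝ) ^ J := one_le_pow₀ (by exact_mod_cast hz)
  have hexp1 : (1 : ℝ) ≤ Real.exp (2 * S) := Real.one_le_exp (by linarith)
  have hn2' : (2 : ℝ) ≤ n := by exact_mod_cast hn
  have hy2 : (z : ℝ) ^ J * 2 ≤ y := by
    refine le_trans ?_ hy
    have : (z : ℝ) ^ J * 2 = (z : ℝ) ^ J * 1 * 2 := by ring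
    rw [this]
    exact mul_le_mul (mul_le_mul_of_nonneg_left hexp1 (by positivity)) hn2' (by norm_num)
      (by positivity)
  have hy2' : z ^ J * 2 ≤ y := by exact_mod_cast hy2
  have hzJ' : 1 ≤ z ^ J := Nat.one_le_pow _ _ hz
  have hy1 : 1 ≤ y := by omega
  have hyy : ((y - 1 : ℕ) : ℝ) ≤ y := by exact_mod_cast Nat.sub_le y 1
  have hIoc : Ioc x (x + y - 1) = Ico (x + 1) (x + 1 + (y - 1)) := by
    ext m; simp only [mem_Ioc, mem_Ico]; omega
  have hIoc' : Ioc x (x + y - 1) = Ioc x (x + (y - 1)) := by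
    ext m; simp only [mem_Ioc]; omega
  set k := ⌈S / L⌉₊ with hk
  rw [windowCount_eq n x y hy1]
  -- the three sets
  set I := Ioc x (x + y - 1) with hI
  set A1 := I.filter (fun m => ∃ p ∈ Q, p ^ 2 ∣ m) with hA1
  set A2 := I.filter (fun m => k ≤ om Q m) with hA2
  set A3 := I.filter (fun m => HasMediumDivisor n m ∧ (¬ ∃ p ∈ Q, p ^ 2 ∣ m) ∧ om Q m < k) with hA3
  have hcov : I.filter (fun m => HasMediumDivisor n m) ⊆ A1 ∪ (A2 ∪ A3) := by
    intro m hm
    rw [mem_filter] at hm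
    simp only [hA1, hA2, hA3, mem_union, mem_filter]
    by_cases h1 : ∃ p ∈ Q, p ^ 2 ∣ m
    · exact Or.inl ⟨hm.1, h1⟩
    · rcases Nat.lt_or_ge (om Q m) k with h2 | h2
      · exact Or.inr (Or.inr ⟨hm.1, hm.2, h1, h2⟩)
      · exact Or.inr (Or.inl ⟨hm.1, h2⟩)
  have hcard : ((I.filter (fun m => HasMediumDivisor n m)).card : ℝ)
      ≤ A1.card + (A2.card + A3.card) := by
    have h1 := card_le_card hcov
    have h2 := card_union_le A1 (A2 ∪ A3)
    have h3 := card_union_le A2 A3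
    have h4 : (I.filter (fun m => HasMediumDivisor n m)).card
      ≤ A1.card + (A2.card + A3.card) := by omega
    exact_mod_cast h4
  -- A1
  have hA1c : (A1.card : ℝ) ≤ y * (1 / z0) + z := by
    have h := sq_count Q z0 z hz0 (fun p hp => mem_Ioc.2 (hQ p hp).2) x (y - 1)
    rw [← hIoc'] at h
    refine h.trans ?_
    have : ((y - 1 : ℕ) : ℝ) / z0 ≤ y * (1 / z0) := by
      rw [mul_one_div]
      exact div_le_div_of_nonneg_right hyy (Nat.cast_nonneg _)
    linarith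
  -- A2
  have hA2c : (A2.card : ℝ) ≤ 4 * y * Real.exp (-(delta * S)) := by
    have hw1 : (0 : ℝ) ≤ 1 / L - 1 := by
      rw [sub_nonneg, le_div_iff₀ hL0]; linarith
    have hK : z ^ J ≤ y - 1 := by omega
    have h := card_om_ge hQ' hz hw1 (x + 1) (y - 1) hK k
    rw [← hIoc] at h
    refine h.trans ?_
    have h1 : ((1 + (1 / L - 1)) ^ k)⁻¹ * Real.exp ((1 / L - 1) * S) ≤ Real.exp (-(delta * S)) := by
      have e1 : ((1 + (1 / L - 1)) ^ k)⁻¹ = Real.exp (k * Real.log L) := by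
        have : (1 + (1 / L - 1)) = L⁻¹ := by rw [one_div]; ring
        rw [this, inv_pow, inv_inv, ← Real.rpow_natCast, Real.rpow_def_of_pos hL0]
        congr 1; ring
      rw [e1, ← Real.exp_add]
      apply Real.exp_le_exp.2
      have h2 : S / L ≤ k := Nat.le_ceil _
      have h3 : Real.log L ≤ 0 := Real.log_nonpos hL0.le hL2.le
      have h4 : (k : ℝ) * Real.log L ≤ S / L * Real.log L := mul_le_mul_of_nonpos_right h2 h3
      have h5 : S / L * Real.log L + (1 / L - 1) * S = -(delta * S) := by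
        unfold delta
        rw [← hL]; field_simp; ring
      linarith
    have h2 : 2 * ((y - 1 : ℕ) : ℝ) * (((1 + (1 / L - 1)) ^ k)⁻¹ * Real.exp ((1 / L - 1) * S)
        + Real.exp (Real.exp 1 * S - J)) ≤ 2 * y * (Real.exp (-(delta * S)) + Real.exp (-(delta * S))) := by
      refine mul_le_mul (by linarith) (by linarith) ?_ (by positivity)
      have : (0 : ℝ) < 1 + (1 / L - 1) := by linarith
      positivity
    linarith
  -- A3
  have hA3c : (A3.card : ℝ) ≤ 15 * y * Real.exp (-(delta * S)) := by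
    set w := 1 - 1 / (2 * L) with hw
    have hv : 1 - w = 1 / (2 * L) := by rw [hw]; ring
    have h2L : 1 < 2 * L := by linarith
    have hw0 : 0 ≤ w := by
      rw [hw, sub_nonneg, div_le_one (by linarith)]; linarith
    have hw1 : w ≤ 1 := by
      rw [hw]; have : 0 ≤ 1 / (2 * L) := by positivity
      linarith
    have h := pair_sum Q z J n hz (by omega) hQ' hJe hJ hn2 x y hy w hw0 hw1 A3 (by
      intro m hm
      rw [hA3, mem_filter] at hm
      rw [← hIoc]
      exact ⟨hm.1, hm.2.1, hm.2.2.1⟩)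
    have h1 : ∀ m ∈ A3, Real.exp (-(S / L * Real.log (2 * L))) ≤ (1 - w) ^ (om Q m) := by
      intro m hm
      rw [hA3, mem_filter] at hm
      have h2 : (om Q m : ℝ) < S / L := Nat.lt_ceil.1 hm.2.2.2
      have e1 : (1 - w) ^ (om Q m) = Real.exp (-((om Q m : ℝ) * Real.log (2 * L))) := by
        rw [hv, one_div, inv_pow, Real.exp_neg, ← Real.rpow_natCast,
          Real.rpow_def_of_pos (by linarith)]
        congr 2; ring
      rw [e1]
      apply Real.exp_le_exp.2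
      have h3 : 0 ≤ Real.log (2 * L) := Real.log_nonneg h2L.le
      have := mul_le_mul_of_nonneg_right h2.le h3
      linarith
    have h2 : (A3.card : ℝ) * Real.exp (-(S / L * Real.log (2 * L)))
        ≤ 15 * y * Real.exp (-(2 * w * S)) := by
      refine le_trans ?_ h
      have := sum_le_sum h1
      rw [sum_const, nsmul_eq_mul] at this
      exact this
    have h3 : (A3.card : ℝ) = A3.card * Real.exp (-(S / L * Real.log (2 * L)))
        * Real.exp (S / L * Real.log (2 * L)) := by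
      rw [mul_assoc, ← Real.exp_add]
      simp
    rw [h3]
    refine (mul_le_mul_of_nonneg_right h2 (Real.exp_pos _).le).trans ?_
    rw [mul_assoc, ← Real.exp_add]
    refine le_of_eq ?_
    congr 2
    rw [Real.log_mul (by norm_num) hL0.ne', ← hL, hw]
    unfold delta
    rw [← hL]; field_simp; ring
  have : y * (19 * Real.exp (-(delta * S)) + 1 / z0) + z
      = (y * (1 / z0) + z) + (4 * y * Real.exp (-(delta * S)) + 15 * y * Real.exp (-(delta * S))) := by
    ring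
  rw [this]
  linarith

end Pool.MWL
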