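import Pool.Agent.MWL.UppB
import Pool.Agent.MRZ.PVb

/-!
# MWL/UppC: the upper bound for the number of integers with a medium divisor in a window,
uniform in the position of the window and in the size of `n`
-/

set_option autoImplicit false

namespace Pool.MWL

open Finset Pool.MedDiv Filter

theorem ev_cond (M a η : ℝ) (hM : 0 < M) (ha : 0 < a) (hη : 0 < η) :
    ∃ T0 : ℝ, 16 ≤ T0 ∧ ∀ T ≥ T0, M * (1 + Real.log T) ≤ T ^ a ∧ 6 ≤ T ^ η := by
  have h1 := (isLittleO_log_rpow_atTop ha).bound (show (0 : ℝ) < 1 / (2 * M) by positivity)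
  have h2 := (tendsto_rpow_atTop ha).eventually_ge_atTop (2 * M)
  have h3 := (tendsto_rpow_atTop hη).eventually_ge_atTop 6
  obtain ⟨T1, hT1⟩ := eventually_atTop.1 (h1.and (h2.and h3))
  refine ⟨max 16 T1, le_max_left _ _, fun T hT => ?_⟩
  have hT16 : 16 ≤ T := (le_max_left _ _).trans hT
  obtain ⟨e1, e2, e3⟩ := hT1 T ((le_max_right _ _).trans hT)
  have hTa : 0 < T ^ a := Real.rpow_pos_of_pos (by linarith) _
  rw [Real.norm_eq_abs, Real.norm_eq_abs, abs_of_pos hTa] at e1
  have e4 := (le_abs_self _).trans e1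
  refine ⟨?_, e3⟩
  have e5 : M * Real.log T ≤ T ^ a / 2 := by
    have := mul_le_mul_of_nonneg_left e4 hM.le
    have e6 : M * (1 / (2 * M) * T ^ a) = T ^ a / 2 := by field_simp
    linarith
  linarith

/-- **Upper bound.** For every `η > 0` there is `T0` such that for all `T ≥ T0`, `n ≥ e^T`,
`y ≥ n e^T` and all `x`, at most `T^(-δ+η) y` integers `m`, `x < m < x + y`, have a divisor `d`
with `n < d < 2 n`. -/
theorem upper (η : ℝ) (hη : 0 < η) : ∃ T0 : ℝ, ∀ T : ℝ, T0 ≤ T → ∀ n : ℕ, Real.exp T ≤ n →
    ∀ x y : ℕ, (n : ℝ) * Real.exp T ≤ y → (windowCount n x y : ℝ) ≤ T ^ (-delta + η) * y := by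
  obtain ⟨C, hC0, hC⟩ := MRZ.PVb.mertens_nat
  obtain ⟨hL1, hL2, hd0, hd1⟩ := log2_facts'
  set a : ℝ := min (η / 2) (1 / 2) with ha
  have ha0 : 0 < a := lt_min (by linarith) (by norm_num)
  have ha1 : a ≤ 1 / 2 := min_le_right _ _
  have ha2 : a ≤ η / 2 := min_le_left _ _
  set M : ℝ := 76 * Real.exp (2 * C) + 12 * C + 10 with hM
  have hM0 : 0 < M := by positivity
  obtain ⟨T0, hT0, hev⟩ := ev_cond M a η hM0 ha0 hη
  refine ⟨T0, fun T hT n hn x y hy => ?_⟩
  obtain ⟨c1, c2⟩ := hev T hT
  have hT16 : 16 ≤ T := hT0.trans hT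
  have hTp : 0 < T := by linarith
  have hlogT : 1 ≤ Real.log T := by
    rw [Real.le_log_iff_exp_le hTp]
    have := Real.exp_one_lt_d9; linarith
  have hM1 : 1 ≤ M := by
    have : 0 < Real.exp (2 * C) := Real.exp_pos _
    linarith
  have hTa : 0 < T ^ a := Real.rpow_pos_of_pos hTp _
  set A : ℝ := T ^ (1 - a) with hA
  have hAa : T ^ a ≤ A := Real.rpow_le_rpow_of_exponent_le (by linarith) (by linarith)
  have hAT : A * T ^ a = T := by
    rw [hA, ← Real.rpow_add hTp]; simp
  have hA1 : 1 + Real.log T ≤ A := by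
    refine le_trans ?_ (c1.trans hAa)
    have : 0 ≤ 1 + Real.log T := by linarith
    nlinarith
  have hA2 : 2 ≤ A := by linarith
  have hATle : A ≤ T := by
    have : (1 : ℝ) ≤ T ^ a := by
      have h : 0 ≤ 1 + Real.log T := by linarith
      nlinarith
    nlinarith
  have hexpA : T ≤ Real.exp A := by
    have h := Real.exp_le_exp.2 (show Real.log T ≤ A by linarith)
    rwa [Real.exp_log hTp] at h
  set z := ⌊Real.exp A⌋₊ with hz
  set z0 := ⌊T⌋₊ with hz0
  have hz0le : (z0 : ℝ) ≤ T := Nat.floor_le hTp.le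
  have hz0ge : T - 1 < z0 := by have := Nat.lt_floor_add_one T; linarith
  have hz016 : 16 ≤ z0 := Nat.le_floor (by exact_mod_cast hT16)
  have hzle : (z : ℝ) ≤ Real.exp A := Nat.floor_le (Real.exp_pos _).le
  have hzge : Real.exp A - 1 < z := by have := Nat.lt_floor_add_one (Real.exp A); linarith
  have hz0z : z0 ≤ z := Nat.floor_le_floor hexpA
  have hz2 : 2 ≤ z := by omega
  have hzr : (16 : ℝ) ≤ z := by exact_mod_cast hz016.trans hz0z
  have hz0r : (16 : ℝ) ≤ z0 := by exact_mod_cast hz016
  set Q := pr z0 z with hQ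
  set S := rs Q with hS
  have hSeq : S = MRZ.PVb.S z - MRZ.PVb.S z0 := by
    rw [hS, hQ, ← MRZ.PVb.S_sub hz0z]; rfl
  have hm1 := abs_le.1 (hC z hz2)
  have hm0 := abs_le.1 (hC z0 (by omega))
  have hlz : Real.log z ≤ A := by
    rw [Real.log_le_iff_le_exp (by linarith)]; exact hzle
  have hlz0 : 1 ≤ Real.log z0 := by
    rw [Real.le_log_iff_exp_le (by linarith)]
    have := Real.exp_one_lt_d9; linarith
  have hllz0 : 0 ≤ Real.log (Real.log z0) := Real.log_nonneg hlz0
  have hlz0' : Real.log z0 ≤ Real.log T := Real.log_le_log (by linarith) hz0le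
  have hllz0' : Real.log (Real.log z0) ≤ Real.log (Real.log T) :=
    Real.log_le_log (by linarith) hlz0'
  have hlzpos : 1 ≤ Real.log z := by
    rw [Real.le_log_iff_exp_le (by linarith)]
    have := Real.exp_one_lt_d9; linarith
  have hllz : Real.log (Real.log z) ≤ Real.log A := Real.log_le_log (by linarith) hlz
  have hlogA : Real.log A = (1 - a) * Real.log T := by rw [hA, Real.log_rpow hTp]
  have hlz' : A / 2 ≤ Real.log z := by
    have h1 : Real.exp A / 2 ≤ z := by
      have : (2 : ℝ) ≤ Real.exp A := by linarith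
      linarith
    have h2 := Real.log_le_log (by positivity) h1
    rw [Real.log_div (Real.exp_pos _).ne' (by norm_num), Real.log_exp] at h2
    linarith
  have hllz' : (1 - a) * Real.log T - Real.log 2 ≤ Real.log (Real.log z) := by
    have h2 := Real.log_le_log (by positivity) hlz'
    rw [Real.log_div (by positivity) (by norm_num), hlogA] at h2
    exact h2
  have hSup : S ≤ Real.log T + 2 * C := by
    have : (1 - a) * Real.log T ≤ Real.log T := by nlinarith
    rw [hSeq]; linarith [hm1.2, hm0.1]
  have hSlow : (1 - a) * Real.log T - Real.log 2 - Real.log (Real.log T) - 2 * C ≤ S := by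
    rw [hSeq]; linarith [hm1.1, hm0.2]
  have hS0 : 0 ≤ S := by
    rw [hS]; unfold rs; exact sum_nonneg fun _ _ => by positivity
  set J := 2 * ⌈2 * S⌉₊ with hJ
  have hJe : Even J := even_two_mul _
  have hJ4 : 4 * S ≤ J := by
    have := Nat.le_ceil (2 * S)
    rw [hJ]; push_cast; linarith
  have hJu : (J : ℝ) ≤ 4 * S + 2 := by
    have := Nat.ceil_lt_add_one (show 0 ≤ 2 * S by linarith)
    rw [hJ]; push_cast; linarith
  have hbig : (z : ℝ) ^ J * Real.exp (2 * S) ≤ Real.exp T := by
    have h1 : (z : ℝ) ^ J ≤ Real.exp (A * J) := by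
      calc (z : ℝ) ^ J ≤ (Real.exp A) ^ J := pow_le_pow_left₀ (by positivity) hzle _
        _ = Real.exp (A * J) := by rw [← Real.exp_nat_mul]; ring_nf
    calc (z : ℝ) ^ J * Real.exp (2 * S) ≤ Real.exp (A * J) * Real.exp (2 * S) :=
          mul_le_mul_of_nonneg_right h1 (Real.exp_pos _).le
      _ = Real.exp (A * J + 2 * S) := by rw [Real.exp_add]
      _ ≤ Real.exp T := by
          apply Real.exp_le_exp.2
          have h2 : A * J ≤ A * (4 * S + 2) := mul_le_mul_of_nonneg_left hJu (by linarith)
          have h3 : A * (4 * S + 2) + 2 * S ≤ A * (6 * S + 2) := by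
            have h31 : 1 * (2 * S) ≤ A * (2 * S) :=
              mul_le_mul_of_nonneg_right (by linarith) (by linarith)
            have h32 : A * (6 * S + 2) = A * (4 * S + 2) + A * (2 * S) := by ring
            rw [h32]; linarith
          have h4 : 6 * S + 2 ≤ M * (1 + Real.log T) := by
            have h5 : M * (1 + Real.log T) = M + M * Real.log T := by ring
            have h6 : 76 * Real.exp (2 * C) * Real.log T ≥ 0 := by positivity
            have h7 : M * Real.log T = 76 * Real.exp (2 * C) * Real.log T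
              + 12 * C * Real.log T + 10 * Real.log T := by rw [hM]; ring
            have h8 : 0 ≤ 12 * C * Real.log T := by positivity
            have h9 : 0 < Real.exp (2 * C) := Real.exp_pos _
            linarith
          have h5 : A * (6 * S + 2) ≤ A * T ^ a :=
            mul_le_mul_of_nonneg_left (h4.trans c1) (by linarith)
          rw [hAT] at h5
          linarith
  have hn1 : (1 : ℝ) < n := lt_of_lt_of_le (by
    have := Real.add_one_le_exp T; linarith) hn
  have hn2 : 2 ≤ n := by
    have : 1 < n := by exact_mod_cast hn1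
    omega
  have hnp : (0 : ℝ) < n := by linarith
  have key := key_ineq Q z0 z J n (by omega) (by omega) hn2 (fun p hp => by
    rw [hQ] at hp
    unfold pr at hp
    rw [mem_filter, mem_Ioc] at hp
    exact ⟨hp.2, hp.1.1, hp.1.2⟩) hJe hJ4 (hbig.trans hn) x y
    ((mul_le_mul_of_nonneg_right hbig hnp.le).trans (by rw [mul_comm]; exact hy))
  refine key.trans ?_
  -- z ≤ y / T
  have hy0 : (0 : ℝ) < y := lt_of_lt_of_le (by positivity) hy
  have hyT : (z : ℝ) ≤ y * (1 / T) := by
    rw [mul_one_div, le_div_iff₀ hTp]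
    calc (z : ℝ) * T ≤ Real.exp T * Real.exp T := by
          refine mul_le_mul (hzle.trans (Real.exp_le_exp.2 hATle)) ?_ hTp.le (Real.exp_pos _).le
          have := Real.add_one_le_exp T; linarith
      _ ≤ n * Real.exp T := mul_le_mul_of_nonneg_right hn (Real.exp_pos _).le
      _ ≤ y := hy
  have hz0T : 1 / (z0 : ℝ) ≤ 2 / T := by
    rw [div_le_div_iff₀ (by linarith) hTp]; linarith
  have hexpS : Real.exp (-(delta * S)) ≤ 2 * Real.exp (2 * C) * Real.log T * T ^ (-delta + a) := by
    have hlT0 : 0 < Real.log T := by linarith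
    have e1 : 2 * Real.exp (2 * C) * Real.log T * T ^ (-delta + a)
        = Real.exp (Real.log 2 + 2 * C + Real.log (Real.log T) + Real.log T * (-delta + a)) := by
      rw [Real.exp_add, Real.exp_add, Real.exp_add, Real.exp_log (by norm_num),
        Real.exp_log hlT0, ← Real.rpow_def_of_pos hTp]
    rw [e1]
    apply Real.exp_le_exp.2
    set U := Real.log 2 + 2 * C + Real.log (Real.log T) with hU
    have hU0 : 0 ≤ U := by
      have : 0 ≤ Real.log (Real.log T) := Real.log_nonneg hlogT
      linarith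
    have h1 : (1 - a) * Real.log T - U ≤ S := by rw [hU]; linarith
    have h2 := mul_le_mul_of_nonneg_left h1 hd0.le
    have h3 : delta * U ≤ U := by nlinarith
    have h4 : delta * (a * Real.log T) ≤ a * Real.log T := by
      have : 0 ≤ a * Real.log T := by positivity
      nlinarith
    have h5 : delta * ((1 - a) * Real.log T - U)
      = delta * Real.log T - delta * (a * Real.log T) - delta * U := by ring
    have h6 : Real.log T * (-delta + a) = a * Real.log T - delta * Real.log T := by ring
    linarith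
  have hTd : T ^ (-delta + a) * T ^ a ≤ T ^ (-delta + η) := by
    rw [← Real.rpow_add hTp]
    exact Real.rpow_le_rpow_of_exponent_le (by linarith) (by linarith)
  have hfin1 : 19 * Real.exp (-(delta * S)) ≤ T ^ (-delta + η) / 2 := by
    have hp : 0 < T ^ (-delta + a) := Real.rpow_pos_of_pos hTp _
    have h1 : 76 * Real.exp (2 * C) * Real.log T ≤ T ^ a := by
      refine le_trans ?_ c1
      have h5 : M * (1 + Real.log T) = M + M * Real.log T := by ring
      have h7 : M * Real.log T = 76 * Real.exp (2 * C) * Real.log T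
        + 12 * C * Real.log T + 10 * Real.log T := by rw [hM]; ring
      have h8 : 0 ≤ 12 * C * Real.log T := by positivity
      linarith
    have h2 := mul_le_mul_of_nonneg_left h1 hp.le
    have h3 : 19 * Real.exp (-(delta * S))
        ≤ T ^ (-delta + a) * (76 * Real.exp (2 * C) * Real.log T) / 2 := by
      have := mul_le_mul_of_nonneg_left hexpS (show (0 : ℝ) ≤ 19 by norm_num)
      linarith
    linarith
  have hfin2 : 3 / T ≤ T ^ (-delta + η) / 2 := by
    have h1 : T ^ (-delta + η) = T ^ (-delta) * T ^ η := Real.rpow_add hTp _ _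
    have h2 : T⁻¹ ≤ T ^ (-delta) := by
      rw [← Real.rpow_neg_one]
      exact Real.rpow_le_rpow_of_exponent_le (by linarith) (by linarith)
    have h3 : T⁻¹ * 6 ≤ T ^ (-delta) * T ^ η := mul_le_mul h2 c2 (by norm_num) (by positivity)
    rw [h1, div_eq_mul_inv]
    linarith
  have hfin : 19 * Real.exp (-(delta * S)) + 1 / z0 + 1 / T ≤ T ^ (-delta + η) := by
    have e : 3 / T = 2 / T + 1 / T := by ring
    linarith
  calc y * (19 * Real.exp (-(delta * S)) + 1 / z0) + z
      ≤ y * (19 * Real.exp (-(delta * S)) + 1 / z0) + y * (1 / T) := by linarith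
    _ = y * (19 * Real.exp (-(delta * S)) + 1 / z0 + 1 / T) := by ring
    _ ≤ y * T ^ (-delta + η) := mul_le_mul_of_nonneg_left hfin hy0.le
    _ = T ^ (-delta + η) * y := by ring

end Pool.MWL
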